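import Mathlib

/-!
# KI Avg: upper bound for the trapezoid error of an approximately convex function

`A_h(a)` is the mean of `S` over `[a-h, a+h]`. (P) `A_h(a)` plus `C2 (N h + Y log h) / 2` is nondecreasing in `h`; with
`s0 = 1 / N ^ 2` this gives `A_h(a) ≥ S(a) - 4 - C2 (N h + 2 Y log N) / 2`. (MC) midpoint convexity up to an error, (U) upper
bound by the mean of `|S|`, (Chain) doubling of the step.
-/

set_option autoImplicit false

namespace Pool.Agent.H36.KI

open MeasureTheory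

/-- the integral over a symmetric interval as a difference of primitives -/
theorem avg_int {S : ℝ → ℝ} (hS : Continuous S) (a x : ℝ) :
    ∫ t in (a - x)..(a + x), S t = (∫ t in (0 : ℝ)..(a + x), S t) - ∫ t in (0 : ℝ)..(a - x), S t :=
  (intervalIntegral.integral_interval_sub_left (hS.intervalIntegrable _ _) (hS.intervalIntegrable _ _)).symm

theorem avg_deriv {S : ℝ → ℝ} (hS : Continuous S) (a x : ℝ) :
    HasDerivAt (fun y => ∫ t in (a - y)..(a + y), S t) (S (a + x) + S (a - x)) x := by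
  have h1 : HasDerivAt (fun y => ∫ t in (0 : ℝ)..y, S t) (S (a + x)) (a + x) :=
    (hS.integral_hasStrictDerivAt 0 (a + x)).hasDerivAt
  have h2 : HasDerivAt (fun y => ∫ t in (0 : ℝ)..y, S t) (S (a - x)) (a - x) :=
    (hS.integral_hasStrictDerivAt 0 (a - x)).hasDerivAt
  have h3 : HasDerivAt (fun y : ℝ => a + y) 1 x := (hasDerivAt_id x).const_add a
  have h4 : HasDerivAt (fun y : ℝ => a - y) (-1) x := (hasDerivAt_id x).const_sub a
  have h5 := (h1.comp x h3).sub (h2.comp x h4)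
  have h6 : (fun y => ∫ t in (a - y)..(a + y), S t) =
      (fun y => ∫ t in (0 : ℝ)..y, S t) ∘ (fun y : ℝ => a + y) - (fun y => ∫ t in (0 : ℝ)..y, S t) ∘ fun y : ℝ => a - y := by
    funext y
    exact avg_int hS a y
  rw [h6]
  exact h5.congr_deriv (by ring)

/-- (P) -/
theorem avg_mono {S : ℝ → ℝ} (hS : Continuous S) {C2 N Y : ℝ}
    (h1 : ∀ a τ : ℝ, 0 < τ → -1 ≤ a - τ → a + τ ≤ 1 →
      -(C2 * τ * (N * τ + Y)) ≤ τ * (S (a + τ) + S (a - τ)) - ∫ t in (a - τ)..(a + τ), S t)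
    {a s h : ℝ} (hs : 0 < s) (hsh : s ≤ h) (ha : -1 ≤ a - h) (hb : a + h ≤ 1) :
    (∫ t in (a - s)..(a + s), S t) / (2 * s) + C2 / 2 * (N * s + Y * Real.log s) ≤
      (∫ t in (a - h)..(a + h), S t) / (2 * h) + C2 / 2 * (N * h + Y * Real.log h) := by
  have hder : ∀ x : ℝ, 0 < x → HasDerivAt
      (fun y => (∫ t in (a - y)..(a + y), S t) / (2 * y) + C2 / 2 * (N * y + Y * Real.log y))
      (((S (a + x) + S (a - x)) * (2 * x) - (∫ t in (a - x)..(a + x), S t) * 2) / (2 * x) ^ 2 +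
        C2 / 2 * (N + Y * x⁻¹)) x := by
    intro x hx
    have e1 := avg_deriv hS a x
    have e2 : HasDerivAt (fun y : ℝ => 2 * y) 2 x := by
      simpa using (hasDerivAt_id x).const_mul (2 : ℝ)
    have e3 := e1.div e2 (by positivity)
    have e4 : HasDerivAt (fun y : ℝ => N * y) N x := by
      simpa using (hasDerivAt_id x).const_mul N
    have e5 : HasDerivAt (fun y : ℝ => Y * Real.log y) (Y * x⁻¹) x := (Real.hasDerivAt_log hx.ne').const_mul Y
    exact e3.add ((e4.add e5).const_mul (C2 / 2))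
  have hmono : MonotoneOn
      (fun y => (∫ t in (a - y)..(a + y), S t) / (2 * y) + C2 / 2 * (N * y + Y * Real.log y)) (Set.Icc s h) := by
    apply monotoneOn_of_deriv_nonneg (convex_Icc s h)
    · intro x hx
      exact (hder x (hs.trans_le hx.1)).continuousAt.continuousWithinAt
    · intro x hx
      exact (hder x (hs.trans_le (interior_subset hx).1)).differentiableAt.differentiableWithinAt
    · intro x hx
      have hx' := interior_subset hx
      have hx0 : 0 < x := hs.trans_le hx'.1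
      rw [(hder x hx0).deriv]
      have h2 := h1 a x hx0 (by linarith [hx'.2]) (by linarith [hx'.2])
      have h3 : ((S (a + x) + S (a - x)) * (2 * x) - (∫ t in (a - x)..(a + x), S t) * 2) / (2 * x) ^ 2 +
          C2 / 2 * (N + Y * x⁻¹) =
          (x * (S (a + x) + S (a - x)) - (∫ t in (a - x)..(a + x), S t) + C2 * x * (N * x + Y)) / (2 * x ^ 2) := by
        field_simp
      rw [h3]
      apply div_nonneg _ (by positivity)
      linarith
  exact hmono (Set.left_mem_Icc.mpr hsh) (Set.right_mem_Icc.mpr hsh) hsh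

theorem avg_half_log : (1 : ℝ) / 2 ≤ Real.log 2 := by
  have := Real.log_two_gt_d9
  linarith

theorem avg_half_log' {N : ℝ} (hN : 2 ≤ N) : 1 / 2 ≤ Real.log N :=
  avg_half_log.trans (Real.log_le_log (by norm_num) hN)

/-- lower bound for the mean: `2 h S(a) ≤ ∫ + 2 h (4 + C2 (N h + 2 Y log N) / 2)` -/
theorem avg_low {S : ℝ → ℝ} (hS : Continuous S) {C2 N Y : ℝ} (hC2 : 0 ≤ C2) (hN : 2 ≤ N) (hY : 1 ≤ Y)
    (h1 : ∀ a τ : ℝ, 0 < τ → -1 ≤ a - τ → a + τ ≤ 1 →
      -(C2 * τ * (N * τ + Y)) ≤ τ * (S (a + τ) + S (a - τ)) - ∫ t in (a - τ)..(a + τ), S t)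
    (h4 : ∀ t t' : ℝ, -1 ≤ t → t ≤ 1 → -1 ≤ t' → t' ≤ 1 → |S t - S t'| ≤ 4 * N ^ 2 * |t - t'|)
    {a h : ℝ} (hh : 1 / N ≤ h) (ha : -1 ≤ a - h) (hb : a + h ≤ 1) :
    S a ≤ (∫ t in (a - h)..(a + h), S t) / (2 * h) + 4 + C2 / 2 * (N * h + 2 * (Y * Real.log N)) := by
  have hN0 : 0 < N := by linarith
  have hL := avg_half_log' hN
  set s : ℝ := 1 / N ^ 2 with hsdef
  have hs : 0 < s := by positivity
  have hsN : s ≤ 1 / N := by
    rw [hsdef]
    apply one_div_le_one_div_of_le hN0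
    nlinarith
  have hsh : s ≤ h := hsN.trans hh
  have hh0 : 0 < h := hs.trans_le hsh
  have hm := avg_mono hS h1 hs hsh ha hb
  have hlow : S a - 4 ≤ (∫ t in (a - s)..(a + s), S t) / (2 * s) := by
    rw [le_div_iff₀ (by positivity)]
    have h5 : ∫ t in (a - s)..(a + s), (S a - 4) ≤ ∫ t in (a - s)..(a + s), S t := by
      apply intervalIntegral.integral_mono_on (by linarith) (continuous_const.intervalIntegrable _ _)
        (hS.intervalIntegrable _ _)
      intro t ht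
      have h6 := h4 a t (by linarith) (by linarith) (by linarith [ht.1]) (by linarith [ht.2])
      have h7 : |a - t| ≤ s := by
        rw [abs_le]
        constructor <;> linarith [ht.1, ht.2]
      have h8 : 4 * N ^ 2 * |a - t| ≤ 4 := by
        have : 4 * N ^ 2 * |a - t| ≤ 4 * N ^ 2 * s := mul_le_mul_of_nonneg_left h7 (by positivity)
        have h9 : 4 * N ^ 2 * s = 4 := by
          rw [hsdef]
          field_simp
        linarith
      have h10 := (abs_le.mp (h6.trans h8)).2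
      linarith
    rw [intervalIntegral.integral_const, smul_eq_mul] at h5
    have h11 : a + s - (a - s) = 2 * s := by ring
    rw [h11] at h5
    linarith
  have hlogs : Real.log s = -(2 * Real.log N) := by
    rw [hsdef, one_div, Real.log_inv, Real.log_pow]
    push_cast
    ring
  have hlogh : Real.log h ≤ 0 := Real.log_nonpos hh0.le (by linarith)
  rw [hlogs] at hm
  have hY0 : 0 ≤ Y := by linarith
  have h12 : C2 / 2 * (Y * Real.log h) ≤ 0 := by
    have : Y * Real.log h ≤ 0 := mul_nonpos_of_nonneg_of_nonpos hY0 hlogh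
    have hc : 0 ≤ C2 / 2 := by positivity
    exact mul_nonpos_of_nonneg_of_nonpos hc this
  have h13 : 0 ≤ C2 / 2 * (N * s) := by positivity
  nlinarith

/-- (MC) -/
theorem avg_mid {S : ℝ → ℝ} (hS : Continuous S) {C2 N Y : ℝ} (hC2 : 0 ≤ C2) (hN : 2 ≤ N) (hY : 1 ≤ Y)
    (h1 : ∀ a τ : ℝ, 0 < τ → -1 ≤ a - τ → a + τ ≤ 1 →
      -(C2 * τ * (N * τ + Y)) ≤ τ * (S (a + τ) + S (a - τ)) - ∫ t in (a - τ)..(a + τ), S t)
    (h4 : ∀ t t' : ℝ, -1 ≤ t → t ≤ 1 → -1 ≤ t' → t' ≤ 1 → |S t - S t'| ≤ 4 * N ^ 2 * |t - t'|)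
    {a h : ℝ} (hh : 1 / N ≤ h) (ha : -1 ≤ a - h) (hb : a + h ≤ 1) :
    S a ≤ (S (a + h) + S (a - h)) / 2 + (8 + 2 * C2) * (N * h + Y * Real.log N) := by
  have hN0 : 0 < N := by linarith
  have hL := avg_half_log' hN
  have hh0 : 0 < h := lt_of_lt_of_le (by positivity) hh
  have h5 := avg_low hS hC2 hN hY h1 h4 hh ha hb
  have h6 := h1 a h hh0 ha hb
  have h7 : (∫ t in (a - h)..(a + h), S t) / (2 * h) ≤ (S (a + h) + S (a - h)) / 2 + C2 / 2 * (N * h + Y) := by
    rw [div_le_iff₀ (by positivity)]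
    nlinarith
  have hYL : Y / 2 ≤ Y * Real.log N := by nlinarith
  have h8 : 4 ≤ 8 * (Y * Real.log N) := by nlinarith
  have h9 : C2 / 2 * Y ≤ C2 * (Y * Real.log N) := by nlinarith
  have h10 : 0 ≤ N * h := by positivity
  have h11 : 0 ≤ C2 * (N * h) := by positivity
  nlinarith

/-- (Chain), abstract -/
theorem avg_chain {F : ℝ → ℝ} {κ N C4 C5 W : ℝ} (hκ : 0 < κ) (hκ1 : κ ≤ 1) (hN : 2 ≤ N) (hC4 : 0 ≤ C4) (hC5 : 0 ≤ C5)
    (hW : 0 ≤ W)
    (hM : ∀ a h : ℝ, 1 / N ≤ h → -1 ≤ a - h → a + h ≤ 1 → F a ≤ (F (a + h) + F (a - h)) / 2 + C4 * (N * h + W))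
    (hU : ∀ c : ℝ, |c| ≤ 1 - κ / 2 → F c ≤ C5 * N) (hF : ∀ t : ℝ, -1 ≤ t → t ≤ 1 → -N ≤ F t)
    {c τ : ℝ} (hc : |c| ≤ 1 - κ) (hτ : 1 / N ≤ τ) (hτκ : τ ≤ κ / 4) :
    F (c + τ) - F c ≤ τ * (4 * (C5 + 1) * N / κ) + C4 * (2 * Real.log N * N * τ + 2 * W) := by
  have hN0 : 0 < N := by linarith
  have hτ0 : 0 < τ := lt_of_lt_of_le (by positivity) hτ
  obtain ⟨hc1, hc2⟩ := abs_le.mp hc
  have key : ∀ (i : ℕ) (h : ℝ), 1 / N ≤ h → κ / 4 < 2 ^ i * h → 2 ^ i * h ≤ κ / 2 →
      F (c + h) - F c ≤ h * (4 * (C5 + 1) * N / κ) + C4 * (i * N * h + 2 * W) := by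
    intro i
    induction i with
    | zero =>
      intro h hh h1 h2
      rw [pow_zero, one_mul] at h1 h2
      have hh0 : 0 < h := lt_of_lt_of_le (by positivity) hh
      have h3 := hU (c + h) (by rw [abs_le]; constructor <;> linarith)
      have h4 := hF c (by linarith) (by linarith)
      have h5 : (C5 + 1) * N ≤ h * (4 * (C5 + 1) * N / κ) := by
        rw [mul_div_assoc', le_div_iff₀ hκ]
        have h6 : 0 ≤ (C5 + 1) * N := by positivity
        nlinarith
      have h7 : 0 ≤ C4 * (((0 : ℕ) : ℝ) * N * h + 2 * W) := by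
        apply mul_nonneg hC4
        simp only [Nat.cast_zero, zero_mul, zero_add]
        positivity
      have h9 : F (c + h) - F c ≤ (C5 + 1) * N := by
        rw [add_mul, one_mul]
        linarith
      exact h9.trans (h5.trans (le_add_of_nonneg_right h7))
    | succ i ih =>
      intro h hh h1 h2
      have hh0 : 0 < h := lt_of_lt_of_le (by positivity) hh
      have h1' : κ / 4 < 2 ^ i * (2 * h) := by
        rw [← mul_assoc, ← pow_succ]
        exact h1
      have h2' : 2 ^ i * (2 * h) ≤ κ / 2 := by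
        rw [← mul_assoc, ← pow_succ]
        exact h2
      have h3 := ih (2 * h) (by linarith) h1' h2'
      have h2h : 2 * h ≤ κ / 2 := by
        have : (1 : ℝ) ≤ 2 ^ i := one_le_pow₀ (by norm_num)
        nlinarith
      have h4 := hM (c + h) h hh (by linarith) (by linarith)
      have e1 : c + h + h = c + 2 * h := by ring
      have e2 : c + h - h = c := by ring
      rw [e1, e2] at h4
      push_cast
      have h5 : 2 * h * (4 * (C5 + 1) * N / κ) / 2 = h * (4 * (C5 + 1) * N / κ) := by ring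
      nlinarith
  obtain ⟨i, hi1, hi2⟩ := exists_nat_pow_near (x := κ / (2 * τ)) (y := 2) (by
    rw [le_div_iff₀ (by positivity)]; linarith) (by norm_num)
  rw [le_div_iff₀ (by positivity)] at hi1
  rw [div_lt_iff₀ (by positivity), pow_succ] at hi2
  have h1 := key i τ hτ (by nlinarith) (by nlinarith)
  have hi : (i : ℝ) ≤ 2 * Real.log N := by
    have h2 : (2 : ℝ) ^ i ≤ N := by
      have h3 : 1 ≤ N * τ := by
        rw [div_le_iff₀ hN0] at hτ
        linarith
      have h4 : (0 : ℝ) < 2 ^ i := by positivity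
      nlinarith
    have h5 := Real.log_le_log (by positivity) h2
    rw [Real.log_pow] at h5
    have h6 := avg_half_log
    have h7 : (0 : ℝ) ≤ i := Nat.cast_nonneg i
    nlinarith
  refine h1.trans ?_
  have h8 : (i : ℝ) * N * τ ≤ 2 * Real.log N * N * τ := by
    have : 0 ≤ N * τ := by positivity
    nlinarith
  have h9 := mul_le_mul_of_nonneg_left h8 hC4
  nlinarith

/-- upper bound for the trapezoid error of an approximately convex function -/
theorem avg (κ C2 C3 C6 : ℝ) (hκ : 0 < κ) (hκ1 : κ ≤ 1) (hC2 : 0 ≤ C2) (hC3 : 0 ≤ C3)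
    (hC6 : 0 ≤ C6) :
    ∃ C : ℝ, 0 ≤ C ∧ ∀ (S : ℝ → ℝ) (N Y : ℝ), Continuous S → 2 ≤ N → 1 ≤ Y →
      Y * Real.log N ≤ C6 * N →
      (∀ a τ : ℝ, 0 < τ → -1 ≤ a - τ → a + τ ≤ 1 →
        -(C2 * τ * (N * τ + Y)) ≤ τ * (S (a + τ) + S (a - τ)) - ∫ t in (a - τ)..(a + τ), S t) →
      (∫ t in (-1 : ℝ)..1, |S t| ≤ C3 * N) →
      (∀ t : ℝ, -1 ≤ t → t ≤ 1 → -N ≤ S t) →
      (∀ t t' : ℝ, -1 ≤ t → t ≤ 1 → -1 ≤ t' → t' ≤ 1 → |S t - S t'| ≤ 4 * N ^ 2 * |t - t'|) →
      ∀ c τ : ℝ, |c| ≤ 1 - κ → 1 / N ≤ τ → τ ≤ κ / 4 →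
        τ * (S (c + τ) + S (c - τ)) - ∫ t in (c - τ)..(c + τ), S t ≤
          C * τ * (N * τ + Y) * Real.log N := by
  set C5 : ℝ := C3 / κ + 2 + C2 + C2 * C6 with hC5def
  set C4 : ℝ := 8 + 2 * C2 with hC4def
  have hC5 : 0 ≤ C5 := by positivity
  have hC4 : 0 ≤ C4 := by positivity
  refine ⟨2 * (8 * (C5 + 1) / κ + 2 * C4) + 16 + 2 * C2, by positivity, ?_⟩
  intro S N Y hS hN hY hYN h1 h2 h3 h4 c τ hc hτ hτκ
  have hN0 : 0 < N := by linarith
  have hL := avg_half_log' hN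
  have hτ0 : 0 < τ := lt_of_lt_of_le (by positivity) hτ
  have hYL : Y / 2 ≤ Y * Real.log N := by nlinarith
  have hW : 0 ≤ Y * Real.log N := by nlinarith
  have hM : ∀ a h : ℝ, 1 / N ≤ h → -1 ≤ a - h → a + h ≤ 1 →
      S a ≤ (S (a + h) + S (a - h)) / 2 + C4 * (N * h + Y * Real.log N) :=
    fun a h hh ha hb => avg_mid hS hC2 hN hY h1 h4 hh ha hb
  have hU : ∀ c : ℝ, |c| ≤ 1 - κ / 2 → S c ≤ C5 * N := by
    intro c hc
    obtain ⟨hc1, hc2⟩ := abs_le.mp hc
    have h5 := avg_low hS hC2 hN hY h1 h4 (a := c) (h := κ / 2) (by linarith) (by linarith) (by linarith)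
    have h6 : (∫ t in (c - κ / 2)..(c + κ / 2), S t) ≤ ∫ t in (-1 : ℝ)..1, |S t| := by
      have h7 : (∫ t in (c - κ / 2)..(c + κ / 2), S t) ≤ ∫ t in (c - κ / 2)..(c + κ / 2), |S t| := by
        apply intervalIntegral.integral_mono_on (by linarith) (hS.intervalIntegrable _ _)
          (hS.abs.intervalIntegrable _ _)
        intro t _
        exact le_abs_self _
      refine h7.trans ?_
      apply intervalIntegral.integral_mono_interval (by linarith) (by linarith) (by linarith)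
      · exact Filter.Eventually.of_forall fun t => abs_nonneg _
      · exact hS.abs.intervalIntegrable _ _
    have h8 : (∫ t in (c - κ / 2)..(c + κ / 2), S t) / (2 * (κ / 2)) ≤ C3 / κ * N := by
      have e : 2 * (κ / 2) = κ := by ring
      rw [e, div_mul_eq_mul_div]
      exact div_le_div_of_nonneg_right (h6.trans h2) hκ.le
    have h9 : C2 / 2 * (N * (κ / 2) + 2 * (Y * Real.log N)) ≤ C2 * N + C2 * C6 * N := by
      have e1 : C2 / 2 * (N * (κ / 2)) ≤ C2 * N := by
        have : N * κ ≤ N := by nlinarith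
        nlinarith
      have e2 : C2 * (Y * Real.log N) ≤ C2 * (C6 * N) := mul_le_mul_of_nonneg_left hYN hC2
      nlinarith
    have h10 : C5 * N = C3 / κ * N + 2 * N + C2 * N + C2 * C6 * N := by
      rw [hC5def]; ring
    rw [h10]
    linarith
  have hB1 := avg_chain hκ hκ1 hN hC4 hC5 hW hM hU h3 hc hτ hτκ
  have hB2 : S (c - τ) - S c ≤
      τ * (4 * (C5 + 1) * N / κ) + C4 * (2 * Real.log N * N * τ + 2 * (Y * Real.log N)) := by
    have h5 := avg_chain (F := fun t => S (-t)) hκ hκ1 hN hC4 hC5 hW (fun a h hh ha hb => by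
      have h6 := hM (-a) h hh (by linarith) (by linarith)
      have e1 : -a + h = -(a - h) := by ring
      have e2 : -a - h = -(a + h) := by ring
      rw [e1, e2] at h6
      show S (-a) ≤ (S (-(a + h)) + S (-(a - h))) / 2 + C4 * (N * h + Y * Real.log N)
      linarith) (fun c hc => hU (-c) (by rwa [abs_neg])) (fun t ht1 ht2 => h3 (-t) (by linarith) (by linarith))
      (c := -c) (by rwa [abs_neg]) hτ hτκ
    have e1 : -(-c + τ) = c - τ := by ring
    have e2 : -(-c) = c := by ring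
    simp only [e1, e2] at h5
    exact h5
  obtain ⟨hc1, hc2⟩ := abs_le.mp hc
  have h5 := avg_low hS hC2 hN hY h1 h4 (a := c) (h := τ) hτ (by linarith) (by linarith)
  have h6 : 2 * τ * S c ≤ (∫ t in (c - τ)..(c + τ), S t) + 2 * τ * (4 + C2 / 2 * (N * τ + 2 * (Y * Real.log N))) := by
    have h7 := mul_le_mul_of_nonneg_left h5 (show 0 ≤ 2 * τ by positivity)
    have h8 : 2 * τ * ((∫ t in (c - τ)..(c + τ), S t) / (2 * τ)) = ∫ t in (c - τ)..(c + τ), S t := by
      field_simp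
    nlinarith
  set L := Real.log N with hLdef
  set I := ∫ t in (c - τ)..(c + τ), S t with hI
  set K := C5 + 1 with hK
  have hK0 : 0 ≤ K / κ := by positivity
  have hx : 0 ≤ N * τ := by positivity
  have hxL : N * τ ≤ 2 * (L * (N * τ)) := by nlinarith
  have e3 : τ * (4 * K * N / κ) = 4 * (K / κ) * (N * τ) := by ring
  rw [e3] at hB1 hB2
  have hB : 4 * (K / κ) * (N * τ) + C4 * (2 * L * N * τ + 2 * (Y * L)) ≤ (8 * (K / κ) + 2 * C4) * ((N * τ + Y) * L) := by
    have h9 : 4 * (K / κ) * (N * τ) ≤ 8 * (K / κ) * (L * (N * τ)) := by nlinarith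
    have h10 : 0 ≤ (K / κ) * (Y * L) := by positivity
    nlinarith
  have hR : 4 + C2 / 2 * (N * τ + 2 * (Y * L)) ≤ (8 + C2) * ((N * τ + Y) * L) := by
    have h9 : 4 ≤ 8 * (Y * L) := by nlinarith
    have h10 : C2 * (N * τ) ≤ C2 * (2 * (L * (N * τ))) := mul_le_mul_of_nonneg_left hxL hC2
    have h11 : 0 ≤ L * (N * τ) := by positivity
    nlinarith
  have hfin : τ * (S (c + τ) + S (c - τ)) - I ≤
      τ * (2 * ((8 * (K / κ) + 2 * C4) * ((N * τ + Y) * L))) + 2 * τ * ((8 + C2) * ((N * τ + Y) * L)) := by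
    have h12 : S (c + τ) + S (c - τ) ≤ 2 * S c + 2 * ((8 * (K / κ) + 2 * C4) * ((N * τ + Y) * L)) := by linarith
    have h13 := mul_le_mul_of_nonneg_left h12 hτ0.le
    have h14 := mul_le_mul_of_nonneg_left hR (show 0 ≤ 2 * τ by positivity)
    nlinarith
  refine hfin.trans (le_of_eq ?_)
  ring

end Pool.Agent.H36.KI
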