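import Pool.Agent.H36.KI.Defs

set_option autoImplicit false

/-!
# [H36 KI Cnt] number of points in a slab
-/

namespace Pool.Agent.H36.KI

open Finset
open Pool.Agent.H47.KZ (IsKritzinger chi)
open Pool.Agent.H36.KD (mu core)

theorem lg_ge_one {N : ℕ} (hN : 1 ≤ N) : 1 ≤ lg N := by
  unfold lg
  have : 0 ≤ Real.log N := Real.log_nonneg (by exact_mod_cast hN)
  linarith

/-- all boxes with a corner at the origin -/
theorem mu_bd (k m : ℕ) : ∃ C : ℝ, 0 ≤ C ∧ ∀ z : ℕ → Fin (k + 1) → ℝ, IsKritzinger (k + 1) m z →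
    ∀ N : ℕ, m ≤ N → 1 ≤ N → ∀ q : Fin (k + 1) → ℝ, (∀ r, 0 ≤ q r ∧ q r ≤ 1) →
      |mu z N 0 q| ≤ C * YY k N := by
  obtain ⟨A, hA⟩ : ∃ A : ℝ, A = ((k : ℝ) + 1) * ((k : ℝ) + 1 + 2 ^ (k + 1) + 4 ^ (k + 1) * (8 * m)) :=
    ⟨_, rfl⟩
  have hA0 : 0 ≤ A := by rw [hA]; positivity
  refine ⟨A * 2 ^ k * 2, by positivity, ?_⟩
  intro z h N hm hN q hq
  have hNR : (1 : ℝ) ≤ N := by exact_mod_cast hN
  have hN0R : (0 : ℝ) < N := by linarith
  have hlog2' : (1 : ℝ) / 2 ≤ Real.log 2 := by linarith [Real.log_two_gt_d9]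
  obtain ⟨R, hR⟩ : ∃ R : ℝ, R = (N : ℝ) ^ (1 / 3 : ℝ) := ⟨_, rfl⟩
  have hR1 : 1 ≤ R := by
    rw [hR]
    exact Real.one_le_rpow (by linarith) (by norm_num)
  have hR0 : 0 < R := by linarith
  have hRpow : R ^ 3 = N := by
    rw [hR, ← Real.rpow_natCast, ← Real.rpow_mul hN0R.le]
    norm_num
  have hR2 : (N : ℝ) ^ (2 / 3 : ℝ) = R ^ 2 := by
    rw [hR, ← Real.rpow_natCast, ← Real.rpow_mul hN0R.le]
    norm_num
  obtain ⟨L, hL⟩ : ∃ L : ℕ, L = Nat.log 2 ⌊R⌋₊ := ⟨_, rfl⟩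
  have hfl : 1 ≤ ⌊R⌋₊ := Nat.le_floor (by exact_mod_cast hR1)
  have hL1 : (2 : ℝ) ^ L ≤ R := by
    have h1 : 2 ^ L ≤ ⌊R⌋₊ := by rw [hL]; exact Nat.pow_log_le_self 2 (by omega)
    have h2 : ((2 ^ L : ℕ) : ℝ) ≤ R := (Nat.cast_le.2 h1).trans (Nat.floor_le hR0.le)
    exact_mod_cast h2
  have hL2 : R < 2 ^ (L + 1) := by
    have h1 : ⌊R⌋₊ < 2 ^ (L + 1) := by rw [hL]; exact Nat.lt_pow_succ_log_self (by norm_num) _
    have h2 := (Nat.floor_lt hR0.le).1 h1
    exact_mod_cast h2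
  have hL3 : (2 : ℝ) ^ (3 * L) ≤ N := by
    rw [mul_comm, pow_mul, ← hRpow]
    exact pow_le_pow_left₀ (by positivity) hL1 3
  have hT0 : (0 : ℝ) < 2 ^ L := by positivity
  have hLN : (L : ℝ) + 1 ≤ 2 * lg N := by
    have h1 : (L : ℝ) * Real.log 2 ≤ Real.log N := by
      have h2 : Real.log ((2 : ℝ) ^ L) ≤ Real.log N := by
        apply Real.log_le_log hT0
        refine hL1.trans ?_
        rw [← hRpow]
        exact le_self_pow₀ hR1 (by norm_num)
      rwa [Real.log_pow] at h2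
    have h3 : (L : ℝ) * (1 / 2) ≤ L * Real.log 2 :=
      mul_le_mul_of_nonneg_left hlog2' (Nat.cast_nonneg L)
    unfold lg
    linarith
  have hc := core h N L hm hL3 q hq
  refine hc.trans ?_
  have e : ((k : ℝ) + 1) * (((k : ℝ) + 1 + 2 ^ (k + 1) + 4 ^ (k + 1) * (8 * m)) *
      ((L : ℝ) + 1) ^ k * (N / 2 ^ L)) = A * (((L : ℝ) + 1) ^ k * (N / 2 ^ L)) := by
    rw [hA]; ring
  rw [e]
  have h2 : ((L : ℝ) + 1) ^ k ≤ (2 * lg N) ^ k := pow_le_pow_left₀ (by positivity) hLN _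
  have h3 : (N : ℝ) / 2 ^ L ≤ 2 * R ^ 2 := by
    rw [div_le_iff₀ hT0, ← hRpow]
    rw [pow_succ] at hL2
    nlinarith [mul_pos hR0 hR0]
  calc A * (((L : ℝ) + 1) ^ k * (N / 2 ^ L)) ≤ A * ((2 * lg N) ^ k * (2 * R ^ 2)) := by
        apply mul_le_mul_of_nonneg_left _ hA0
        have h4 := lg_ge_one hN
        exact mul_le_mul h2 h3 (by positivity) (by positivity)
    _ = A * 2 ^ k * 2 * YY k N := by
        unfold YY
        rw [hR2, mul_pow]
        ring

private theorem mu_upd {k : ℕ} (z : ℕ → Fin (k + 1) → ℝ) (hz : ∀ j r, 0 ≤ z j r ∧ z j r < 1)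
    (r : Fin (k + 1)) (N : ℕ) (c : ℝ) :
    mu z N 0 (Function.update (fun _ => (1 : ℝ)) r c) =
      (((range N).filter (fun i => z i r < c)).card : ℝ) - N * c := by
  unfold mu
  congr 1
  · congr 2
    apply filter_congr
    intro i _
    constructor
    · intro h
      have := (h r).2
      rwa [Function.update_self] at this
    · intro h s
      refine ⟨(hz i s).1, ?_⟩
      by_cases hs : s = r
      · subst hs
        rwa [Function.update_self]
      · rw [Function.update_of_ne hs]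
        exact (hz i s).2
  · congr 1
    rw [← mul_prod_erase univ _ (mem_univ r)]
    rw [prod_eq_one, Function.update_self]
    · simp
    · intro s hs
      rw [Function.update_of_ne (ne_of_mem_erase hs)]
      simp

private theorem upd_mem {k : ℕ} (r : Fin (k + 1)) (c : ℝ) (h0 : 0 ≤ c) (h1 : c ≤ 1) :
    ∀ s, 0 ≤ Function.update (fun _ : Fin (k + 1) => (1 : ℝ)) r c s ∧
      Function.update (fun _ : Fin (k + 1) => (1 : ℝ)) r c s ≤ 1 := by
  intro s
  by_cases hs : s = r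
  · subst hs
    rw [Function.update_self]
    exact ⟨h0, h1⟩
  · rw [Function.update_of_ne hs]
    exact ⟨zero_le_one, le_rfl⟩

private theorem slab {k : ℕ} (z : ℕ → Fin (k + 1) → ℝ) (hz : ∀ j r, 0 ≤ z j r ∧ z j r < 1)
    (N : ℕ) (M : ℝ) (hM0 : 0 ≤ M)
    (hM : ∀ q : Fin (k + 1) → ℝ, (∀ r, 0 ≤ q r ∧ q r ≤ 1) → |mu z N 0 q| ≤ M)
    (r : Fin (k + 1)) (A B τ : ℝ) (hτ : 0 < τ) (hAB : B = A + 2 * τ) (hA1 : A ≤ 1) :
    ∑ n ∈ range N, (if A ≤ z n r ∧ z n r ≤ B then (1 : ℝ) else 0) ≤ 2 * M + 3 * (N * τ) := by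
  have hN0 : (0 : ℝ) ≤ N := Nat.cast_nonneg N
  rw [← sum_filter, sum_const, nsmul_eq_mul, mul_one]
  by_cases hB : B < 0
  · have e : (range N).filter (fun n => A ≤ z n r ∧ z n r ≤ B) = ∅ := by
      apply filter_eq_empty_iff.2
      intro n _ h
      linarith [(hz n r).1, h.2]
    rw [e]
    simp only [card_empty, Nat.cast_zero]
    positivity
  push Not at hB
  obtain ⟨A', hA'⟩ : ∃ A' : ℝ, A' = max 0 A := ⟨_, rfl⟩
  obtain ⟨B', hB'⟩ : ∃ B' : ℝ, B' = min 1 (B + τ) := ⟨_, rfl⟩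
  have hA'0 : 0 ≤ A' := by rw [hA']; exact le_max_left _ _
  have hA'A : A ≤ A' := by rw [hA']; exact le_max_right _ _
  have hA'1 : A' ≤ 1 := by rw [hA']; exact max_le zero_le_one hA1
  have hB'1 : B' ≤ 1 := by rw [hB']; exact min_le_left _ _
  have hB'B : B' ≤ B + τ := by rw [hB']; exact min_le_right _ _
  have hA'B' : A' ≤ B' := by
    rw [hA', hB']
    apply max_le
    · exact le_min zero_le_one (by linarith)
    · exact le_min hA1 (by linarith)
  have m1 := hM _ (upd_mem r A' hA'0 hA'1)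
  have m2 := hM _ (upd_mem r B' (hA'0.trans hA'B') hB'1)
  rw [mu_upd z hz] at m1 m2
  have hsub : (range N).filter (fun n => A ≤ z n r ∧ z n r ≤ B) ∪
      (range N).filter (fun n => z n r < A') ⊆ (range N).filter (fun n => z n r < B') := by
    intro n hn
    rw [mem_union, mem_filter, mem_filter] at hn
    rw [mem_filter]
    rcases hn with ⟨h1, _, h3⟩ | ⟨h1, h2⟩
    · refine ⟨h1, ?_⟩
      rw [hB']
      exact lt_min (hz n r).2 (by linarith)
    · exact ⟨h1, lt_of_lt_of_le h2 hA'B'⟩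
  have hdis : Disjoint ((range N).filter (fun n => A ≤ z n r ∧ z n r ≤ B))
      ((range N).filter (fun n => z n r < A')) := by
    rw [disjoint_left]
    intro n h1 h2
    rw [mem_filter] at h1 h2
    have h3 : A' ≤ z n r := by
      rw [hA']
      exact max_le (hz n r).1 h1.2.1
    linarith [h2.2]
  have hcard := card_le_card hsub
  rw [card_union_of_disjoint hdis] at hcard
  have hcardR : (((range N).filter (fun n => A ≤ z n r ∧ z n r ≤ B)).card : ℝ) +
      (((range N).filter (fun n => z n r < A')).card : ℝ) ≤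
      (((range N).filter (fun n => z n r < B')).card : ℝ) := by exact_mod_cast hcard
  have h1 := (abs_le.1 m1).1
  have h2 := (abs_le.1 m2).2
  have h3 : (N : ℝ) * (B' - A') ≤ N * (3 * τ) := by
    apply mul_le_mul_of_nonneg_left _ hN0
    linarith
  linarith

/-- number of points in a slab -/
theorem count (k m : ℕ) : ∃ C : ℝ, 0 ≤ C ∧ ∀ z : ℕ → Fin (k + 1) → ℝ, IsKritzinger (k + 1) m z →
    ∀ (r : Fin (k + 1)) (N : ℕ), m ≤ N → 2 ≤ N → ∀ a τ : ℝ, 0 < τ → -1 ≤ a - τ → a + τ ≤ 1 →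
      ∑ n ∈ range N, chi (a - τ) (a + τ) (z n r) ≤ C * (N * τ + YY k N) := by
  obtain ⟨C, hC, hb⟩ := mu_bd k m
  refine ⟨4 * C + 6, by positivity, ?_⟩
  intro z h r N hm hN a τ hτ h1 h2
  have hz : ∀ j r, 0 ≤ z j r ∧ z j r < 1 := fun j r => h.mem j r
  have hN0 : (0 : ℝ) ≤ N := Nat.cast_nonneg N
  have hY : 0 ≤ YY k N := by
    unfold YY
    have := lg_ge_one (N := N) (by omega)
    positivity
  have hM : 0 ≤ C * YY k N := mul_nonneg hC hY
  have s1 := slab z hz N _ hM (hb z h N hm (by omega)) r (a - τ) (a + τ) τ hτ (by ring) (by linarith)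
  have s2 := slab z hz N _ hM (hb z h N hm (by omega)) r (-(a + τ)) (-(a - τ)) τ hτ (by ring)
    (by linarith)
  have e : ∑ n ∈ range N, chi (a - τ) (a + τ) (z n r) =
      ∑ n ∈ range N, (if a - τ ≤ z n r ∧ z n r ≤ a + τ then (1 : ℝ) else 0) +
      ∑ n ∈ range N, (if -(a + τ) ≤ z n r ∧ z n r ≤ -(a - τ) then (1 : ℝ) else 0) := by
    rw [← sum_add_distrib]
    refine sum_congr rfl fun n _ => ?_
    unfold chi
    congr 1
    congr 1
    apply propext
    constructor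
    · rintro ⟨h3, h4⟩
      exact ⟨by linarith, by linarith⟩
    · rintro ⟨h3, h4⟩
      exact ⟨by linarith, by linarith⟩
  rw [e]
  have h3 : 0 ≤ (N : ℝ) * τ := by positivity
  nlinarith [mul_nonneg hC h3]

end Pool.Agent.H36.KI
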