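import Pool.Agent.H36.KD.Test
import Pool.Agent.H47.KZ.Stage

set_option autoImplicit false

/-!
# [H36 KI STest] testing the discrepancy function against a product function supported in a slab

For fixed `t` Cauchy-Schwarz in the last `k` variables, then Cauchy-Schwarz in `t` over `[α, β]`.  The mean of `w` over
`[0, 1]` is zero, so the centered coefficients give the same integral; the integral of the square of the centered function
is `Qa p x α β N`.
-/

namespace Pool.Agent.H36.KI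

open Finset MeasureTheory
open Pool.Agent.H47.KZ (Qa)
open Pool.Agent.H47.KZ (Kp hh s avs cov)
open Pool.Agent.H36.KS (Q ind)

/-- measurable and locally bounded -/
private def LB (f : ℝ → ℝ) : Prop := Measurable f ∧ ∀ R : ℝ, ∃ M : ℝ, ∀ t, |t| ≤ R → |f t| ≤ M

private theorem lb_const (c : ℝ) : LB fun _ => c := ⟨measurable_const, fun _ => ⟨|c|, fun _ _ => le_rfl⟩⟩

private theorem lb_id : LB fun t => t := ⟨measurable_id, fun R => ⟨R, fun _ h => h⟩⟩

private theorem lb_s {p : ℝ} (hp : 0 ≤ p) : LB (s p) :=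
  ⟨Pool.Agent.H47.KZ.s_measurable p, fun _ => ⟨1, fun t _ => Pool.Agent.H47.KZ.s_abs_le p t hp⟩⟩

private theorem lb_add {f g : ℝ → ℝ} (hf : LB f) (hg : LB g) : LB fun t => f t + g t := by
  refine ⟨hf.1.add hg.1, fun R => ?_⟩
  obtain ⟨M, hM⟩ := hf.2 R
  obtain ⟨N, hN⟩ := hg.2 R
  exact ⟨M + N, fun t ht => (abs_add_le _ _).trans (add_le_add (hM t ht) (hN t ht))⟩

private theorem lb_mul {f g : ℝ → ℝ} (hf : LB f) (hg : LB g) : LB fun t => f t * g t := by
  refine ⟨hf.1.mul hg.1, fun R => ?_⟩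
  obtain ⟨M, hM⟩ := hf.2 R
  obtain ⟨N, hN⟩ := hg.2 R
  refine ⟨M * N, fun t ht => ?_⟩
  rw [abs_mul]
  exact mul_le_mul (hM t ht) (hN t ht) (abs_nonneg _) ((abs_nonneg _).trans (hM t ht))

private theorem lb_sub {f g : ℝ → ℝ} (hf : LB f) (hg : LB g) : LB fun t => f t - g t := by
  have h := lb_add hf (lb_mul (lb_const (-1)) hg)
  refine ⟨hf.1.sub hg.1, fun R => ?_⟩
  obtain ⟨M, hM⟩ := h.2 R
  refine ⟨M, fun t ht => ?_⟩
  have e : f t - g t = f t + -1 * g t := by ring
  show |f t - g t| ≤ M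
  rw [e]
  exact hM t ht

private theorem lb_sum {f : ℕ → ℝ → ℝ} (hf : ∀ j, LB (f j)) (n : ℕ) :
    LB fun t => ∑ j ∈ range n, f j t := by
  induction n with
  | zero => simpa using lb_const 0
  | succ n ih =>
    have h := lb_add ih (hf n)
    simpa only [Finset.sum_range_succ] using h

private theorem lb_ii {f : ℝ → ℝ} (hf : LB f) (a b : ℝ) : IntervalIntegrable f volume a b := by
  obtain ⟨M, hM⟩ := hf.2 (max |a| |b|)
  rw [intervalIntegrable_iff]
  refine Measure.integrableOn_of_bounded (M := M) ?_ hf.1.aestronglyMeasurable ?_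
  · rw [Set.uIoc, Real.volume_Ioc]
    exact ENNReal.ofReal_ne_top
  · filter_upwards [ae_restrict_mem measurableSet_uIoc] with t ht
    rw [Real.norm_eq_abs]
    apply hM
    rw [Set.mem_uIoc] at ht
    rw [abs_le]
    have ha := le_abs_self a
    have ha' := neg_abs_le a
    have hb := le_abs_self b
    have hb' := neg_abs_le b
    have h1 := le_max_left |a| |b|
    have h2 := le_max_right |a| |b|
    rcases ht with ht | ht
    · constructor <;> linarith [ht.1, ht.2]
    · constructor <;> linarith [ht.1, ht.2]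

/-- the integral over the cube of the square, as a function of `t` -/
private noncomputable def Sf {k : ℕ} (n : ℕ) (x : ℕ → Fin k → ℝ) (c : ℕ → ℝ → ℝ) (c0 : ℝ → ℝ)
    (t : ℝ) : ℝ :=
  ∑ j ∈ range n, ∑ l ∈ range n, c j t * c l t * Kp (x j) (x l)
    + 2 * c0 t * ∑ j ∈ range n, c j t * hh (x j) + c0 t ^ 2 * (1 / 3) ^ k

private theorem Sf_eq {k : ℕ} (n : ℕ) (x : ℕ → Fin k → ℝ) (c : ℕ → ℝ → ℝ) (c0 : ℝ → ℝ) :
    Sf n x c c0 = fun t =>
      (∑ j ∈ range n, ∑ l ∈ range n, (c j t * c l t) * Kp (x j) (x l))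
      + ((∑ j ∈ range n, (c j t * c0 t) * (2 * hh (x j)))
      + (c0 t * c0 t) * (1 / 3) ^ k) := by
  funext t
  unfold Sf
  rw [Finset.mul_sum]
  have h : ∑ j ∈ range n, 2 * c0 t * (c j t * hh (x j)) =
      ∑ j ∈ range n, (c j t * c0 t) * (2 * hh (x j)) :=
    Finset.sum_congr rfl fun j _ => by ring
  rw [h]
  ring

private theorem lb_Sf {k : ℕ} (n : ℕ) (x : ℕ → Fin k → ℝ) (c : ℕ → ℝ → ℝ) (c0 : ℝ → ℝ)
    (hc : ∀ j, LB (c j)) (hc0 : LB c0) : LB (Sf n x c c0) := by
  rw [Sf_eq]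
  refine lb_add (lb_sum (fun j => lb_sum (fun l =>
    lb_mul (lb_mul (hc j) (hc l)) (lb_const _)) n) n) (lb_add (lb_sum (fun j =>
    lb_mul (lb_mul (hc j) hc0) (lb_const _)) n) (lb_mul (lb_mul hc0 hc0) (lb_const _)))

private theorem int_Sf {k : ℕ} (n : ℕ) (x : ℕ → Fin k → ℝ) (c : ℕ → ℝ → ℝ) (c0 : ℝ → ℝ)
    (hc : ∀ j, LB (c j)) (hc0 : LB c0) (a b : ℝ) :
    ∫ t in a..b, Sf n x c c0 t =
      (∑ j ∈ range n, ∑ l ∈ range n, (∫ t in a..b, c j t * c l t) * Kp (x j) (x l))
      + ((∑ j ∈ range n, (∫ t in a..b, c j t * c0 t) * (2 * hh (x j)))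
      + (∫ t in a..b, c0 t * c0 t) * (1 / 3) ^ k) := by
  rw [Sf_eq]
  have i1 : ∀ j l, LB fun t => (c j t * c l t) * Kp (x j) (x l) := fun j l =>
    lb_mul (lb_mul (hc j) (hc l)) (lb_const _)
  have i2 : ∀ j, LB fun t => (c j t * c0 t) * (2 * hh (x j)) := fun j =>
    lb_mul (lb_mul (hc j) hc0) (lb_const _)
  have i3 : LB fun t => (c0 t * c0 t) * (1 / 3 : ℝ) ^ k := lb_mul (lb_mul hc0 hc0) (lb_const _)
  have i4 : LB fun t => ∑ j ∈ range n, (c j t * c0 t) * (2 * hh (x j)) := lb_sum i2 n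
  have i5 : ∀ j, LB fun t => ∑ l ∈ range n, (c j t * c l t) * Kp (x j) (x l) :=
    fun j => lb_sum (i1 j) n
  rw [intervalIntegral.integral_add (lb_ii (lb_sum i5 n) a b) (lb_ii (lb_add i4 i3) a b),
    intervalIntegral.integral_add (lb_ii i4 a b) (lb_ii i3 a b),
    intervalIntegral.integral_finsetSum (fun j _ => lb_ii (i5 j) a b),
    intervalIntegral.integral_finsetSum (fun j _ => lb_ii (i2 j) a b)]
  congr 1
  · refine Finset.sum_congr rfl fun j _ => ?_
    rw [intervalIntegral.integral_finsetSum (fun l _ => lb_ii (i1 j l) a b)]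
    refine Finset.sum_congr rfl fun l _ => ?_
    rw [intervalIntegral.integral_mul_const]
  · congr 1
    · refine Finset.sum_congr rfl fun j _ => ?_
      rw [intervalIntegral.integral_mul_const]
    · rw [intervalIntegral.integral_mul_const]

private noncomputable def cc (p : ℕ → ℝ) (a b : ℝ) (j : ℕ) (t : ℝ) : ℝ := s (p j) t - avs a b (p j)

private noncomputable def cz (n : ℕ) (a b : ℝ) (t : ℝ) : ℝ := -(n : ℝ) * (t - (a + b) / 2)

private theorem int_Sf_Qa {k : ℕ} (p : ℕ → ℝ) (x : ℕ → Fin k → ℝ) (hp : ∀ j, 0 ≤ p j ∧ p j < 1)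
    (n : ℕ) (a b : ℝ) (hab : a < b) :
    ∫ t in a..b, Sf n x (cc p a b) (cz n a b) t = Qa p x a b n := by
  have hc : ∀ j, LB (cc p a b j) := fun j => lb_sub (lb_s (hp j).1) (lb_const _)
  have hc0 : LB (cz n a b) := lb_mul (lb_const _) (lb_sub lb_id (lb_const _))
  rw [int_Sf n x _ _ hc hc0]
  have e1 : ∀ j l, ∫ t in a..b, cc p a b j t * cc p a b l t = cov a b (s (p j)) (s (p l)) :=
    fun j l => Pool.Agent.H47.KZ.int_centered_s_s a b (p j) (p l) (hp j).1 (hp l).1 hab
  have e2 : ∀ j, ∫ t in a..b, cc p a b j t * cz n a b t =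
      -(n : ℝ) * cov a b (s (p j)) (fun t => t) := by
    intro j
    have h : (fun t => cc p a b j t * cz n a b t) = fun t =>
        -(n : ℝ) * ((s (p j) t - avs a b (p j)) * (t - (a + b) / 2)) := by
      funext t
      unfold cc cz
      ring
    rw [h, intervalIntegral.integral_const_mul,
      Pool.Agent.H47.KZ.int_centered_s_id a b (p j) (hp j).1 hab]
  have e3 : ∫ t in a..b, cz n a b t * cz n a b t =
      (n : ℝ) ^ 2 * cov a b (fun t => t) (fun t => t) := by
    have h : (fun t => cz n a b t * cz n a b t) = fun t =>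
        (n : ℝ) ^ 2 * ((t - (a + b) / 2) * (t - (a + b) / 2)) := by
      funext t
      unfold cz
      ring
    rw [h, intervalIntegral.integral_const_mul, Pool.Agent.H47.KZ.int_centered_id_id a b hab]
  simp only [e1, e2, e3]
  unfold Pool.Agent.H47.KZ.Qa
  have e5 : ∑ j ∈ range n, ∑ l ∈ range n, cov a b (s (p j)) (s (p l)) * Kp (x j) (x l) =
      ∑ j ∈ range n, ∑ l ∈ range n, Kp (x j) (x l) * cov a b (s (p j)) (s (p l)) :=
    Finset.sum_congr rfl fun j _ => Finset.sum_congr rfl fun l _ => mul_comm _ _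
  have e6 : ∑ j ∈ range n, -(n : ℝ) * cov a b (s (p j)) (fun t => t) * (2 * hh (x j)) =
      -(2 * n * ∑ j ∈ range n, hh (x j) * cov a b (s (p j)) (fun t => t)) := by
    rw [Finset.mul_sum, ← Finset.sum_neg_distrib]
    exact Finset.sum_congr rfl fun j _ => by ring
  rw [e5, e6]
  ring

/-- the integral of the square over the cube -/
private theorem sq_int {k : ℕ} {x : ℕ → Fin k → ℝ} (hx : ∀ j, x j ∈ Q k) (n : ℕ) (c : ℕ → ℝ)
    (c0 : ℝ) :
    ∫ q in Q k, (∑ l ∈ range n, c l * ind (x l) q + c0 * ∏ r, q r) ^ 2 =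
      ∑ j ∈ range n, ∑ l ∈ range n, c j * c l * Kp (x j) (x l)
        + 2 * c0 * ∑ j ∈ range n, c j * hh (x j) + c0 ^ 2 * (1 / 3) ^ k := by
  have hfin : IsFiniteMeasure ((volume : Measure (Fin k → ℝ)).restrict (Q k)) :=
    ⟨by rw [Measure.restrict_apply_univ, KS.vol_Q]; exact ENNReal.one_lt_top⟩
  have hm1 : ∀ i, Measurable (fun q => ind (x i) q) := fun i => KS.ind_meas_right (x i)
  have hm2 : Measurable (fun q : Fin k → ℝ => ∏ r, q r) := KS.vol_meas k
  have hmul : ∀ {a b : (Fin k → ℝ) → ℝ}, Measurable a → Measurable b →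
      (∀ q ∈ Q k, |a q| ≤ 1) → (∀ q ∈ Q k, |b q| ≤ 1) →
      IntegrableOn (fun q => a q * b q) (Q k) := by
    intro a b ha hb ha1 hb1
    refine Integrable.mono' (integrable_const (1 : ℝ)) (ha.mul hb).aestronglyMeasurable ?_
    refine ae_restrict_of_forall_mem measurableSet_Icc fun q hq => ?_
    rw [Real.norm_eq_abs, abs_mul]
    exact mul_le_one₀ (ha1 q hq) (abs_nonneg _) (hb1 q hq)
  have i1 : ∀ j l, IntegrableOn (fun q => c j * c l * (ind (x j) q * ind (x l) q)) (Q k) :=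
    fun j l => (hmul (hm1 j) (hm1 l) (fun q _ => KS.ind_abs _ _) fun q _ => KS.ind_abs _ _).const_mul _
  have i2 : ∀ l, IntegrableOn (fun q => c l * ((∏ r, q r) * ind (x l) q)) (Q k) := fun l =>
    (hmul hm2 (hm1 l) KS.vol_abs fun q _ => KS.ind_abs _ _).const_mul _
  have i3 : IntegrableOn (fun q : Fin k → ℝ => (∏ r, q r) * ∏ r, q r) (Q k) :=
    hmul hm2 hm2 KS.vol_abs KS.vol_abs
  have s1 : IntegrableOn (fun q => ∑ j ∈ range n, ∑ l ∈ range n,
      c j * c l * (ind (x j) q * ind (x l) q)) (Q k) :=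
    integrable_finsetSum _ fun j _ => integrable_finsetSum _ fun l _ => i1 j l
  have s2 : IntegrableOn (fun q => ∑ l ∈ range n, c l * ((∏ r, q r) * ind (x l) q)) (Q k) :=
    integrable_finsetSum _ fun l _ => i2 l
  have e : ∀ q : Fin k → ℝ, (∑ l ∈ range n, c l * ind (x l) q + c0 * ∏ r, q r) ^ 2 =
      ∑ j ∈ range n, ∑ l ∈ range n, c j * c l * (ind (x j) q * ind (x l) q) +
        2 * c0 * ∑ l ∈ range n, c l * ((∏ r, q r) * ind (x l) q) +
        c0 ^ 2 * ((∏ r, q r) * ∏ r, q r) := by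
    intro q
    have e1 : ∑ j ∈ range n, ∑ l ∈ range n, c j * c l * (ind (x j) q * ind (x l) q) =
        (∑ j ∈ range n, c j * ind (x j) q) * ∑ l ∈ range n, c l * ind (x l) q := by
      rw [sum_mul_sum]
      exact sum_congr rfl fun j _ => sum_congr rfl fun l _ => by ring
    have e2 : ∑ l ∈ range n, c l * ((∏ r, q r) * ind (x l) q) =
        (∏ r, q r) * ∑ l ∈ range n, c l * ind (x l) q := by
      rw [mul_sum]
      exact sum_congr rfl fun l _ => by ring
    rw [e1, e2]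
    ring
  have e3 : ∫ q in Q k, (∏ r, q r) * ∏ r, q r = (1 / 3) ^ k := by
    have e' : ∀ q : Fin k → ℝ, (∏ r, q r) * ∏ r, q r = ∏ r, (q r * q r) := fun q =>
      prod_mul_distrib.symm
    rw [integral_congr_ae (Filter.Eventually.of_forall e'), KS.int_prod (fun _ t => t * t)]
    have : ∫ t in (0 : ℝ)..1, t * t = 1 / 3 := by
      have h2 : ∀ t : ℝ, t * t = t ^ 2 := fun t => by ring
      simp only [h2]
      rw [integral_pow]
      norm_num
    rw [this, prod_const, card_univ, Fintype.card_fin]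
  have s12 : IntegrableOn (fun q => ∑ j ∈ range n, ∑ l ∈ range n,
      c j * c l * (ind (x j) q * ind (x l) q) +
        2 * c0 * ∑ l ∈ range n, c l * ((∏ r, q r) * ind (x l) q)) (Q k) :=
    s1.add (s2.const_mul _)
  rw [integral_congr_ae (Filter.Eventually.of_forall e), integral_add s12 (i3.const_mul _),
    integral_add s1 (s2.const_mul _), integral_const_mul, integral_const_mul, e3,
    integral_finsetSum _ fun j _ => integrable_finsetSum _ fun l _ => i1 j l,
    integral_finsetSum _ fun l _ => i2 l]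
  congr 2
  · refine sum_congr rfl fun j _ => ?_
    rw [integral_finsetSum _ fun l _ => i1 j l]
    refine sum_congr rfl fun l _ => ?_
    rw [integral_const_mul, KS.int_ind_ind (hx j) (hx l)]
  · congr 1
    refine sum_congr rfl fun l _ => ?_
    rw [integral_const_mul, KS.int_vol_ind (hx l)]

/-- Cauchy-Schwarz in the last `k` variables -/
private theorem csy {k : ℕ} {x : ℕ → Fin k → ℝ} (hx : ∀ j, x j ∈ Q k) (n : ℕ) (c : ℕ → ℝ)
    (c0 : ℝ) (u : Fin k → ℝ → ℝ) (Bu : Fin k → ℝ) (hu : ∀ r, Measurable (u r))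
    (hub : ∀ r t, |u r t| ≤ Bu r) :
    (∑ j ∈ range n, c j * ∏ r, (∫ t in (x j r)..1, u r t) +
        c0 * ∏ r, ∫ t in (0 : ℝ)..1, t * u r t) ^ 2 ≤
      (∑ j ∈ range n, ∑ l ∈ range n, c j * c l * Kp (x j) (x l)
        + 2 * c0 * ∑ j ∈ range n, c j * hh (x j) + c0 ^ 2 * (1 / 3) ^ k) *
        ∏ r, ∫ t in (0 : ℝ)..1, u r t ^ 2 := by
  have hfin : IsFiniteMeasure ((volume : Measure (Fin k → ℝ)).restrict (Q k)) :=
    ⟨by rw [Measure.restrict_apply_univ, KS.vol_Q]; exact ENNReal.one_lt_top⟩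
  have hgm : Measurable (fun q : Fin k → ℝ => ∏ r, u r (q r)) :=
    Finset.measurable_prod _ fun r _ => (hu r).comp (measurable_pi_apply r)
  have hgb : ∀ q ∈ Q k, |∏ r, u r (q r)| ≤ ∏ r, Bu r := by
    intro q _
    rw [abs_prod]
    exact prod_le_prod (fun r _ => abs_nonneg _) fun r _ => hub r _
  have hfm : Measurable (fun q => ∑ l ∈ range n, c l * ind (x l) q + c0 * ∏ r, q r) :=
    (Finset.measurable_sum _ fun l _ => (KS.ind_meas_right (x l)).const_mul _).add
      ((KS.vol_meas k).const_mul _)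
  have hfb : ∀ q ∈ Q k, |∑ l ∈ range n, c l * ind (x l) q + c0 * ∏ r, q r| ≤
      ∑ l ∈ range n, |c l| + |c0| := by
    intro q hq
    refine (abs_add_le _ _).trans (add_le_add ?_ ?_)
    · refine (abs_sum_le_sum_abs _ _).trans (sum_le_sum fun l _ => ?_)
      rw [abs_mul]
      exact mul_le_of_le_one_right (abs_nonneg _) (KS.ind_abs _ _)
    · rw [abs_mul]
      exact mul_le_of_le_one_right (abs_nonneg _) (KS.vol_abs q hq)
  have hcs := KD.cs _ _ hfm hgm _ _ hfb hgb
  have e2 : ∫ q in Q k, (∏ r, u r (q r)) ^ 2 = ∏ r, ∫ t in (0 : ℝ)..1, u r t ^ 2 := by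
    have e : ∀ q : Fin k → ℝ, (∏ r, u r (q r)) ^ 2 = ∏ r, (u r (q r)) ^ 2 := fun q =>
      (prod_pow _ _ _).symm
    rw [integral_congr_ae (Filter.Eventually.of_forall e), KS.int_prod (fun r t => u r t ^ 2)]
  have hbd : ∀ a : (Fin k → ℝ) → ℝ, Measurable a → (∀ q ∈ Q k, |a q| ≤ 1) →
      IntegrableOn (fun q => a q * ∏ r, u r (q r)) (Q k) := by
    intro a ha ha1
    refine Integrable.mono' (integrable_const (∏ r, Bu r)) (ha.mul hgm).aestronglyMeasurable ?_
    refine ae_restrict_of_forall_mem measurableSet_Icc fun q hq => ?_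
    rw [Real.norm_eq_abs, abs_mul]
    calc |a q| * |∏ r, u r (q r)| ≤ 1 * ∏ r, Bu r :=
          mul_le_mul (ha1 q hq) (hgb q hq) (abs_nonneg _) zero_le_one
      _ = ∏ r, Bu r := one_mul _
  have i1 : ∀ i, IntegrableOn (fun q => c i * (ind (x i) q * ∏ r, u r (q r))) (Q k) := fun i =>
    (hbd _ (KS.ind_meas_right _) fun q _ => KS.ind_abs _ _).const_mul _
  have i2 : IntegrableOn (fun q : Fin k → ℝ => (∏ r, q r) * ∏ r, u r (q r)) (Q k) :=
    hbd _ (KS.vol_meas _) KS.vol_abs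
  have i3 : IntegrableOn (fun q => ∑ i ∈ range n, c i * (ind (x i) q * ∏ r, u r (q r))) (Q k) :=
    integrable_finsetSum _ fun i _ => i1 i
  have e4 : ∫ q in Q k, (∑ i ∈ range n, c i * ind (x i) q + c0 * ∏ r, q r) * ∏ r, u r (q r) =
      ∑ i ∈ range n, c i * ∏ r, (∫ t in (x i r)..1, u r t) +
        c0 * ∏ r, ∫ t in (0 : ℝ)..1, t * u r t := by
    have e : ∀ q : Fin k → ℝ, (∑ i ∈ range n, c i * ind (x i) q + c0 * ∏ r, q r) *
        ∏ r, u r (q r) = ∑ i ∈ range n, c i * (ind (x i) q * ∏ r, u r (q r)) +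
          c0 * ((∏ r, q r) * ∏ r, u r (q r)) := by
      intro q
      rw [add_mul, sum_mul]
      congr 1
      · exact sum_congr rfl fun i _ => by ring
      · ring
    rw [integral_congr_ae (Filter.Eventually.of_forall e), integral_add i3 (i2.const_mul _),
      integral_finsetSum _ fun i _ => i1 i, integral_const_mul]
    congr 1
    · refine sum_congr rfl fun i _ => ?_
      rw [integral_const_mul]
      congr 1
      have e5 : ∀ q : Fin k → ℝ, ind (x i) q * ∏ r, u r (q r) =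
          ∏ r, (u r (q r) * (if x i r < q r then 1 else 0)) := by
        intro q
        unfold KS.ind
        rw [← prod_mul_distrib]
        exact prod_congr rfl fun r _ => mul_comm _ _
      rw [integral_congr_ae (Filter.Eventually.of_forall e5),
        KS.int_prod (fun r t => u r t * (if x i r < t then 1 else 0))]
      exact prod_congr rfl fun r _ => KS.int_ind _ _ (KS.mem_Q (hx i) r).1 (KS.mem_Q (hx i) r).2
    · congr 1
      have e6 : ∀ q : Fin k → ℝ, (∏ r, q r) * ∏ r, u r (q r) = ∏ r, (q r * u r (q r)) := fun q =>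
        prod_mul_distrib.symm
      rw [integral_congr_ae (Filter.Eventually.of_forall e6), KS.int_prod (fun r t => t * u r t)]
  rw [e4, e2, sq_int hx] at hcs
  have hA0 : 0 ≤ ∑ j ∈ range n, ∑ l ∈ range n, c j * c l * Kp (x j) (x l)
        + 2 * c0 * ∑ j ∈ range n, c j * hh (x j) + c0 ^ 2 * (1 / 3) ^ k := by
    rw [← sq_int hx]
    exact integral_nonneg fun q => sq_nonneg _
  have hB0 : 0 ≤ ∏ r, ∫ t in (0 : ℝ)..1, u r t ^ 2 := prod_nonneg fun r _ =>
    intervalIntegral.integral_nonneg zero_le_one fun t _ => sq_nonneg _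
  have h1 := pow_le_pow_left₀ (abs_nonneg _) hcs 2
  rw [sq_abs, mul_pow, Real.sq_sqrt hA0, Real.sq_sqrt hB0] at h1
  exact h1

/-- Cauchy-Schwarz on an interval -/
private theorem cst {f g : ℝ → ℝ} (hf : LB f) (hg : LB g) {a b : ℝ} (hab : a < b) :
    (∫ t in a..b, f t * g t) ^ 2 ≤ (∫ t in a..b, f t * f t) * ∫ t in a..b, g t * g t := by
  have i1 := lb_ii (lb_mul hf hf) a b
  have i2 := lb_ii (lb_mul hg hg) a b
  have i3 := lb_ii (lb_mul hf hg) a b
  have key : ∀ x : ℝ, 0 ≤ (∫ t in a..b, g t * g t) * (x * x) + (-2 * ∫ t in a..b, f t * g t) * x +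
      ∫ t in a..b, f t * f t := by
    intro x
    have h0 : 0 ≤ ∫ t in a..b, (f t - x * g t) ^ 2 :=
      intervalIntegral.integral_nonneg hab.le fun t _ => sq_nonneg _
    have e : (fun t => (f t - x * g t) ^ 2) =
        fun t => f t * f t - 2 * x * (f t * g t) + x ^ 2 * (g t * g t) := by
      funext t
      ring
    rw [e, intervalIntegral.integral_add (i1.sub (i3.const_mul _)) (i2.const_mul _),
      intervalIntegral.integral_sub i1 (i3.const_mul _), intervalIntegral.integral_const_mul,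
      intervalIntegral.integral_const_mul] at h0
    linarith
  have hd := discrim_le_zero key
  unfold discrim at hd
  nlinarith

/-- test in a slab -/
theorem stest {k : ℕ} (p : ℕ → ℝ) (x : ℕ → Fin k → ℝ) (hp : ∀ j, 0 ≤ p j ∧ p j < 1)
    (hx : ∀ j r, 0 ≤ x j r ∧ x j r < 1) (N : ℕ) (α β : ℝ) (hα : -1 ≤ α) (hαβ : α < β) (hβ : β ≤ 1)
    (w : ℝ → ℝ) (B : ℝ) (hw : Measurable w) (hwB : ∀ t, |w t| ≤ B)
    (hsupp : ∀ t, w t ≠ 0 → α < t ∧ t ≤ β) (h0 : ∫ t in (0 : ℝ)..1, w t = 0)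
    (u : Fin k → ℝ → ℝ) (Bu : Fin k → ℝ) (hu : ∀ r, Measurable (u r)) (hub : ∀ r t, |u r t| ≤ Bu r) :
    |∑ j ∈ range N, (∫ t in (p j)..1, w t) * ∏ r, (∫ t in (x j r)..1, u r t) -
        N * ((∫ t in (0 : ℝ)..1, t * w t) * ∏ r, ∫ t in (0 : ℝ)..1, t * u r t)| ≤
      Real.sqrt (Qa p x α β N) * (Real.sqrt (∫ t in (0 : ℝ)..1, w t ^ 2) *
        ∏ r, Real.sqrt (∫ t in (0 : ℝ)..1, u r t ^ 2)) := by
  have hxQ : ∀ j, x j ∈ Q k := fun j => ⟨fun r => (hx j r).1, fun r => (hx j r).2.le⟩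
  have hc : ∀ j, LB (cc p α β j) := fun j => lb_sub (lb_s (hp j).1) (lb_const _)
  have hc0 : LB (cz N α β) := lb_mul (lb_const _) (lb_sub lb_id (lb_const _))
  obtain ⟨U, hU⟩ : ∃ U : ℕ → ℝ, ∀ j, U j = ∏ r, (∫ t in (x j r)..1, u r t) := ⟨_, fun _ => rfl⟩
  obtain ⟨U0, hU0⟩ : ∃ U0 : ℝ, U0 = ∏ r, ∫ t in (0 : ℝ)..1, t * u r t := ⟨_, rfl⟩
  obtain ⟨P, hP⟩ : ∃ P : ℝ, P = ∏ r, ∫ t in (0 : ℝ)..1, u r t ^ 2 := ⟨_, rfl⟩
  have hP0 : 0 ≤ P := by
    rw [hP]
    exact prod_nonneg fun r _ => intervalIntegral.integral_nonneg zero_le_one fun t _ => sq_nonneg _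
  have hwL : LB w := ⟨hw, fun _ => ⟨B, fun t _ => hwB t⟩⟩
  obtain ⟨wp, hwp⟩ : ∃ wp : ℝ → ℝ, ∀ t, wp t = if 0 < t then w t else 0 := ⟨_, fun _ => rfl⟩
  have hwpL : LB wp := by
    refine ⟨?_, fun _ => ⟨B, fun t _ => ?_⟩⟩
    · have e : wp = fun t => if 0 < t then w t else 0 := funext hwp
      rw [e]
      exact Measurable.ite measurableSet_Ioi hw measurable_const
    · rw [hwp]
      split_ifs
      · exact hwB t
      · rw [abs_zero]
        exact (abs_nonneg _).trans (hwB 0)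
  -- the function `T`
  obtain ⟨T, hT⟩ : ∃ T : ℝ → ℝ, T = fun t => ∑ j ∈ range N, cc p α β j t * U j + cz N α β t * U0 :=
    ⟨_, rfl⟩
  have hTL : LB T := by
    rw [hT]
    exact lb_add (lb_sum (fun j => lb_mul (hc j) (lb_const _)) N) (lb_mul hc0 (lb_const _))
  have hpt : ∀ t, T t * T t ≤ Sf N x (cc p α β) (cz N α β) t * P := by
    intro t
    have h1 := csy hxQ N (fun j => cc p α β j t) (cz N α β t) u Bu hu hub
    rw [← hP, ← hU0] at h1
    simp only [← hU] at h1
    rw [← sq, hT]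
    exact h1
  have hTT : ∫ t in α..β, T t * T t ≤ Qa p x α β N * P := by
    rw [← int_Sf_Qa p x hp N α β hαβ, ← intervalIntegral.integral_mul_const]
    exact intervalIntegral.integral_mono_on hαβ.le (lb_ii (lb_mul hTL hTL) α β)
      (lb_ii (lb_mul (lb_Sf N x _ _ hc hc0) (lb_const _)) α β) fun t _ => hpt t
  -- change of the range of integration
  have key : ∀ f : ℝ → ℝ, ∫ t in α..β, wp t * f t = ∫ t in (0 : ℝ)..1, w t * f t := by
    intro f
    rw [intervalIntegral.integral_of_le hαβ.le, intervalIntegral.integral_of_le zero_le_one,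
      ← integral_indicator measurableSet_Ioc, ← integral_indicator measurableSet_Ioc]
    congr 1
    funext t
    simp only [Set.indicator_apply, Set.mem_Ioc, hwp]
    by_cases h1 : w t = 0
    · simp [h1]
    · have h2 := hsupp t h1
      rw [if_pos h2]
      by_cases h3 : 0 < t
      · rw [if_pos h3, if_pos ⟨h3, h2.2.trans hβ⟩]
      · rw [if_neg h3, if_neg fun h4 => h3 h4.1, zero_mul]
  have hW2 : ∫ t in α..β, wp t * wp t = ∫ t in (0 : ℝ)..1, w t ^ 2 := by
    rw [key wp]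
    refine intervalIntegral.integral_congr_ae (Filter.Eventually.of_forall fun t ht => ?_)
    rw [Set.uIoc_of_le zero_le_one] at ht
    rw [hwp, if_pos ht.1, sq]
  have hW20 : 0 ≤ ∫ t in (0 : ℝ)..1, w t ^ 2 :=
    intervalIntegral.integral_nonneg zero_le_one fun t _ => sq_nonneg _
  -- the left side
  have hs : ∀ j, ∫ t in (0 : ℝ)..1, w t * s (p j) t = ∫ t in (p j)..1, w t := by
    intro j
    rw [← KS.int_ind w (p j) (hp j).1 (hp j).2.le]
    refine intervalIntegral.integral_congr_ae (Filter.Eventually.of_forall fun t ht => ?_)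
    rw [Set.uIoc_of_le zero_le_one] at ht
    congr 1
    unfold Pool.Agent.H47.KZ.s
    rw [if_pos (show -p j < t by linarith [(hp j).1, ht.1])]
    ring
  have hL : ∫ t in α..β, wp t * T t =
      ∑ j ∈ range N, (∫ t in (p j)..1, w t) * U j - N * ((∫ t in (0 : ℝ)..1, t * w t) * U0) := by
    rw [key T]
    have e : (fun t => w t * T t) = fun t =>
        ∑ j ∈ range N, (w t * s (p j) t - avs α β (p j) * w t) * U j +
          (-(N : ℝ) * (t * w t - (α + β) / 2 * w t)) * U0 := by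
      funext t
      rw [hT]
      simp only
      rw [mul_add, mul_sum]
      congr 1
      · refine sum_congr rfl fun j _ => ?_
        unfold cc
        ring
      · unfold cz
        ring
    have j1 : ∀ j, LB fun t => (w t * s (p j) t - avs α β (p j) * w t) * U j := fun j =>
      lb_mul (lb_sub (lb_mul hwL (lb_s (hp j).1)) (lb_mul (lb_const _) hwL)) (lb_const _)
    have j2 : LB fun t => (-(N : ℝ) * (t * w t - (α + β) / 2 * w t)) * U0 :=
      lb_mul (lb_mul (lb_const _) (lb_sub (lb_mul lb_id hwL) (lb_mul (lb_const _) hwL)))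
        (lb_const _)
    rw [e, intervalIntegral.integral_add (lb_ii (lb_sum j1 N) 0 1) (lb_ii j2 0 1),
      intervalIntegral.integral_finsetSum (fun j _ => lb_ii (j1 j) 0 1),
      intervalIntegral.integral_mul_const, intervalIntegral.integral_const_mul,
      intervalIntegral.integral_sub (lb_ii (lb_mul lb_id hwL) 0 1)
        (lb_ii (lb_mul (lb_const _) hwL) 0 1), intervalIntegral.integral_const_mul, h0]
    have e2 : ∀ j ∈ range N, ∫ t in (0 : ℝ)..1, (w t * s (p j) t - avs α β (p j) * w t) * U j =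
        (∫ t in (p j)..1, w t) * U j := by
      intro j _
      rw [intervalIntegral.integral_mul_const,
        intervalIntegral.integral_sub (lb_ii (lb_mul hwL (lb_s (hp j).1)) 0 1)
          (lb_ii (lb_mul (lb_const _) hwL) 0 1), intervalIntegral.integral_const_mul, h0, hs j]
      ring
    rw [sum_congr rfl e2]
    ring
  have hfin : (∑ j ∈ range N, (∫ t in (p j)..1, w t) * U j -
      N * ((∫ t in (0 : ℝ)..1, t * w t) * U0)) ^ 2 ≤
      Qa p x α β N * ((∫ t in (0 : ℝ)..1, w t ^ 2) * P) := by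
    rw [← hL]
    refine (cst hwpL hTL hαβ).trans ?_
    rw [hW2]
    refine (mul_le_mul_of_nonneg_left hTT hW20).trans (le_of_eq ?_)
    ring
  have hQ0 : 0 ≤ Qa p x α β N := Pool.Agent.H47.KZ.Qa_nonneg p x hp hx N α β hαβ
  have hend := Real.abs_le_sqrt hfin
  rw [Real.sqrt_mul hQ0, Real.sqrt_mul hW20, hP, Real.sqrt_prod _ fun r _ =>
    intervalIntegral.integral_nonneg zero_le_one fun t _ => sq_nonneg _] at hend
  rw [hU0] at hend
  simp only [hU] at hend
  exact hend

end Pool.Agent.H36.KI
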