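import Pool.Agent.H36.KD.One

set_option autoImplicit false

/-!
# [H36 KI Split] the differences of two trapezoid derivatives cut at the two end points
-/

namespace Pool.Agent.H36.KI

open MeasureTheory
open Pool.Agent.H36.KD (dpsi du)

/-- one step up, one step down -/
private noncomputable def W (p k v : ℝ) (t : ℝ) : ℝ :=
  v * ((if p < t ∧ t ≤ p + k then 1 else 0) - (if p + k < t ∧ t ≤ p + 2 * k then 1 else 0))

private lemma meas_ind (p q : ℝ) : Measurable fun t : ℝ => if p < t ∧ t ≤ q then (1 : ℝ) else 0 := by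
  have e : (fun t : ℝ => if p < t ∧ t ≤ q then (1 : ℝ) else 0) = (Set.Ioc p q).indicator fun _ => 1 := by
    ext t
    simp [Set.indicator, Set.mem_Ioc]
  rw [e]
  exact measurable_const.indicator measurableSet_Ioc

private lemma ii (p q u v : ℝ) :
    IntervalIntegrable (fun t => if p < t ∧ t ≤ q then (1 : ℝ) else 0) volume u v := by
  refine (intervalIntegrable_const (c := (1 : ℝ))).mono_fun' (meas_ind p q).aestronglyMeasurable ?_
  refine Filter.Eventually.of_forall fun t => ?_
  show ‖if p < t ∧ t ≤ q then (1 : ℝ) else 0‖ ≤ 1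
  split_ifs <;> simp

private lemma int_one (p q : ℝ) (hp : 0 ≤ p) (hpq : p ≤ q) (hq : q ≤ 1) :
    ∫ t in (0 : ℝ)..1, (if p < t ∧ t ≤ q then (1 : ℝ) else 0) = q - p := by
  have e : (fun t => if p < t ∧ t ≤ q then (1 : ℝ) else 0) = (Set.Ioc p q).indicator fun _ => 1 := by
    ext t
    simp [Set.indicator, Set.mem_Ioc]
  rw [e, intervalIntegral.integral_of_le zero_le_one, setIntegral_indicator measurableSet_Ioc,
    Set.Ioc_inter_Ioc, setIntegral_const, Real.volume_real_Ioc, smul_eq_mul, mul_one,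
    max_eq_right hp, min_eq_right hq, max_eq_left (by linarith)]

private lemma W_meas (p k v : ℝ) : Measurable (W p k v) := by
  unfold W
  exact ((meas_ind _ _).sub (meas_ind _ _)).const_mul _

private lemma W_int (p k v : ℝ) (hp : 0 ≤ p) (hk : 0 ≤ k) (h1 : p + 2 * k ≤ 1) :
    ∫ t in (0 : ℝ)..1, W p k v t = 0 := by
  unfold W
  rw [intervalIntegral.integral_const_mul, intervalIntegral.integral_sub (ii _ _ _ _) (ii _ _ _ _),
    int_one _ _ hp (by linarith) (by linarith), int_one _ _ (by linarith) (by linarith) h1]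
  ring

private lemma W_bd (p k v : ℝ) (t : ℝ) : |W p k v t| ≤ |v| := by
  unfold W
  rw [abs_mul]
  have h : |(if p < t ∧ t ≤ p + k then (1 : ℝ) else 0) -
      (if p + k < t ∧ t ≤ p + 2 * k then 1 else 0)| ≤ 1 := by
    split_ifs <;> simp
  calc |v| * _ ≤ |v| * 1 := mul_le_mul_of_nonneg_left h (abs_nonneg _)
    _ = |v| := mul_one _

private lemma W_sq (p k v : ℝ) (hk : 0 ≤ k) (t : ℝ) :
    W p k v t ^ 2 = v ^ 2 * (if p < t ∧ t ≤ p + 2 * k then 1 else 0) := by
  unfold W
  by_cases h1 : p < t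
  · by_cases h2 : t ≤ p + k
    · have h3 : ¬ p + k < t := not_lt.mpr h2
      have h4 : t ≤ p + 2 * k := by linarith
      simp [h1, h2, h3, h4]
    · have h3 : p + k < t := not_le.mp h2
      by_cases h4 : t ≤ p + 2 * k
      · simp [h1, h2, h3, h4]
      · simp [h2, h4]
  · have h3 : ¬ p + k < t := by
      rw [not_lt] at h1 ⊢
      linarith
    simp [h1, h3]

private lemma W_int_sq (p k v : ℝ) (hp : 0 ≤ p) (hk : 0 ≤ k) (h1 : p + 2 * k ≤ 1) :
    ∫ t in (0 : ℝ)..1, W p k v t ^ 2 = v ^ 2 * (2 * k) := by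
  simp only [W_sq p k v hk]
  rw [intervalIntegral.integral_const_mul, int_one _ _ hp (by linarith) h1]
  ring

private lemma W_supp (p k v : ℝ) (hk : 0 ≤ k) (t : ℝ) (h : W p k v t ≠ 0) :
    p < t ∧ t ≤ p + 2 * k := by
  have h2 := W_sq p k v hk t
  by_contra hcon
  rw [if_neg hcon, mul_zero] at h2
  exact h (pow_eq_zero_iff two_ne_zero |>.mp h2)

private lemma lam_zero (a b : ℝ) (ha : 0 ≤ a) (l : ℕ) : Pool.Agent.H36.KD.lam a b l 0 = 0 := by
  unfold Pool.Agent.H36.KD.lam Pool.Agent.H36.KD.cl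
  have h2 : (0 : ℝ) < 2 ^ l := by positivity
  split_ifs with h
  · rw [min_eq_left (show (1 : ℝ) ≤ 2 ^ l * (b - 0) by nlinarith),
      min_eq_right (show (2 : ℝ) ^ l * (0 - a) ≤ 1 by nlinarith),
      max_eq_right (zero_le_one), max_eq_left (show (2 : ℝ) ^ l * (0 - a) ≤ 0 by nlinarith)]
    ring
  · rfl

private lemma int_zero (a b : ℝ) (ha : 0 ≤ a) (hab : a ≤ b) (hb : b ≤ 1) (l : ℕ) :
    ∫ t in (0 : ℝ)..1, dpsi a b l t = 0 := by
  rw [Pool.Agent.H36.KD.int_dpsi a b ha hab hb l 0 le_rfl zero_le_one]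
  unfold Pool.Agent.H36.KD.psi
  rw [lam_zero a b ha, lam_zero a b ha]
  simp

/-- the case of one piece -/
private lemma one_piece (a b : ℝ) (ha : 0 ≤ a) (hab : a ≤ b) (hb : b ≤ 1) (l : ℕ)
    (hs : ∀ t, dpsi a b l t ≠ 0 → a - 2 / 2 ^ l < t ∧ t ≤ a + 2 / 2 ^ l) :
    ∃ w : Fin 2 → ℝ → ℝ, ∃ c : Fin 2 → ℝ,
      (∀ t, dpsi a b l t = w 0 t + w 1 t) ∧
      ∀ i, Measurable (w i) ∧ (∀ t, |w i t| ≤ 4 * 2 ^ l) ∧ (∫ t in (0 : ℝ)..1, w i t = 0) ∧
        (∫ t in (0 : ℝ)..1, w i t ^ 2 ≤ 16 * 2 ^ l) ∧ a ≤ c i ∧ c i ≤ b ∧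
        ∀ t, w i t ≠ 0 → c i - 2 / 2 ^ l < t ∧ t ≤ c i + 2 / 2 ^ l := by
  refine ⟨![dpsi a b l, fun _ => 0], fun _ => a, fun t => ?_, fun i => ?_⟩
  · simp
  · fin_cases i
    · exact ⟨Pool.Agent.H36.KD.dpsi_meas a b l, Pool.Agent.H36.KD.dpsi_bd a b l,
        int_zero a b ha hab hb l, Pool.Agent.H36.KD.int_sq a b ha hab hb l, le_rfl, hab, hs⟩
    · refine ⟨measurable_const, fun t => ?_, ?_, ?_, le_rfl, hab, fun t h => absurd rfl h⟩
      · show |(0 : ℝ)| ≤ _
        rw [abs_zero]
        positivity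
      · show ∫ t in (0 : ℝ)..1, (0 : ℝ) = 0
        simp
      · show ∫ t in (0 : ℝ)..1, (0 : ℝ) ^ 2 ≤ 16 * 2 ^ l
        have : (0 : ℝ) ≤ 16 * 2 ^ l := by positivity
        simpa using this

/-- `dpsi` is a sum of two functions of mean zero with support near one point of `[a,b]` -/
theorem split (a b : ℝ) (ha : 0 ≤ a) (hab : a ≤ b) (hb : b ≤ 1) (l : ℕ) :
    ∃ w : Fin 2 → ℝ → ℝ, ∃ c : Fin 2 → ℝ,
      (∀ t, dpsi a b l t = w 0 t + w 1 t) ∧
      ∀ i, Measurable (w i) ∧ (∀ t, |w i t| ≤ 4 * 2 ^ l) ∧ (∫ t in (0 : ℝ)..1, w i t = 0) ∧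
        (∫ t in (0 : ℝ)..1, w i t ^ 2 ≤ 16 * 2 ^ l) ∧ a ≤ c i ∧ c i ≤ b ∧
        ∀ t, w i t ≠ 0 → c i - 2 / 2 ^ l < t ∧ t ≤ c i + 2 / 2 ^ l := by
  cases l with
  | zero =>
    apply one_piece a b ha hab hb 0
    intro t ht
    have h : du a b 0 t ≠ 0 := by
      intro h0
      apply ht
      unfold Pool.Agent.H36.KD.dpsi
      rw [h0]
      simp
    unfold Pool.Agent.H36.KD.du at h
    simp only [pow_zero, div_one] at h ⊢
    by_contra hcon
    apply h
    rw [if_neg (show ¬ (b - 1 < t ∧ t ≤ b) from fun h1 => hcon ⟨by linarith [h1.1], by linarith [h1.2]⟩),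
      if_neg (show ¬ (a < t ∧ t ≤ a + 1) from fun h1 => hcon ⟨by linarith [h1.1], by linarith [h1.2]⟩)]
    simp
  | succ m =>
    have h2 : (0 : ℝ) < 2 ^ m := by positivity
    have hs : (2 : ℝ) ^ (m + 1) = 2 * 2 ^ m := by rw [pow_succ]; ring
    obtain ⟨k, hk⟩ : ∃ k : ℝ, k = 1 / 2 ^ (m + 1) := ⟨_, rfl⟩
    have hk0 : 0 < k := by rw [hk]; positivity
    have hk2 : (1 : ℝ) / 2 ^ m = 2 * k := by rw [hk, hs]; field_simp
    have hk3 : (2 : ℝ) / 2 ^ (m + 1) = 2 * k := by rw [hk]; ring
    have hk4 : 2 * 2 ^ m * k = 1 := by rw [hk, hs]; field_simp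
    by_cases hm : 1 ≤ 2 ^ m * (b - a)
    · have hl : 1 ≤ 2 ^ (m + 1) * (b - a) := by
        rw [hs]
        nlinarith
      have hkb : 2 * k ≤ b - a := by
        rw [← hk2, div_le_iff₀ h2, mul_comm]; exact hm
      refine ⟨![W a k (-2 ^ m), W (b - 2 * k) k (-2 ^ m)], ![a, b], fun t => ?_, fun i => ?_⟩
      · show dpsi a b (m + 1) t = W a k (-2 ^ m) t + W (b - 2 * k) k (-2 ^ m) t
        have e : dpsi a b (m + 1) t = du a b (m + 1) t - du a b m t := by
          unfold Pool.Agent.H36.KD.dpsi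
          rw [if_neg (Nat.succ_ne_zero m), Nat.add_sub_cancel]
        rw [e]
        unfold Pool.Agent.H36.KD.du W
        rw [if_pos hl, if_pos hm, ← hk, hk2, hs]
        have e1 : b - 2 * k + k = b - k := by ring
        have e2 : b - 2 * k + 2 * k = b := by ring
        rw [e1, e2]
        have A : 2 * (if a < t ∧ t ≤ a + k then (1 : ℝ) else 0) -
            (if a < t ∧ t ≤ a + 2 * k then (1 : ℝ) else 0) =
            (if a < t ∧ t ≤ a + k then (1 : ℝ) else 0) -
            (if a + k < t ∧ t ≤ a + 2 * k then (1 : ℝ) else 0) := by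
          by_cases h1 : a < t
          · by_cases h3 : t ≤ a + k
            · have h4 : ¬ a + k < t := not_lt.mpr h3
              have h5 : t ≤ a + 2 * k := by linarith
              simp [h1, h3, h4, h5]
              norm_num
            · have h4 : a + k < t := not_le.mp h3
              by_cases h5 : t ≤ a + 2 * k
              · simp [h1, h3, h4, h5]
              · simp [h3, h5]
          · have h4 : ¬ a + k < t := by
              rw [not_lt] at h1 ⊢
              linarith
            simp [h1, h4]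
        have B : 2 * (if b - k < t ∧ t ≤ b then (1 : ℝ) else 0) -
            (if b - 2 * k < t ∧ t ≤ b then (1 : ℝ) else 0) =
            (if b - k < t ∧ t ≤ b then (1 : ℝ) else 0) -
            (if b - 2 * k < t ∧ t ≤ b - k then (1 : ℝ) else 0) := by
          by_cases h1 : t ≤ b
          · by_cases h3 : b - k < t
            · have h4 : ¬ t ≤ b - k := not_le.mpr h3
              have h5 : b - 2 * k < t := by linarith
              simp [h1, h3, h4, h5]
              norm_num
            · have h4 : t ≤ b - k := not_lt.mp h3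
              by_cases h5 : b - 2 * k < t
              · simp [h1, h3, h4, h5]
              · simp [h3, h5]
          · have h4 : ¬ t ≤ b - k := by
              rw [not_le] at h1 ⊢
              linarith
            simp [h1, h4]
        linear_combination (2 : ℝ) ^ m * B - (2 : ℝ) ^ m * A
      · have hv : |(-2 ^ m : ℝ)| = 2 ^ m := by rw [abs_neg, abs_of_pos h2]
        have hv2 : (-2 ^ m : ℝ) ^ 2 * (2 * k) = 2 ^ m := by
          have : (-2 ^ m : ℝ) ^ 2 * (2 * k) = 2 ^ m * (2 * 2 ^ m * k) := by ring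
          rw [this, hk4, mul_one]
        fin_cases i
        · refine ⟨W_meas _ _ _, fun t => ?_, W_int _ _ _ ha hk0.le (by linarith), ?_, le_rfl, hab,
            fun t ht => ?_⟩
          · have := W_bd a k (-2 ^ m) t
            show |W a k (-2 ^ m) t| ≤ 4 * 2 ^ (m + 1)
            rw [hv] at this
            rw [hs]
            linarith
          · show ∫ t in (0 : ℝ)..1, W a k (-2 ^ m) t ^ 2 ≤ 16 * 2 ^ (m + 1)
            rw [W_int_sq _ _ _ ha hk0.le (by linarith), hv2, hs]
            linarith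
          · have := W_supp a k (-2 ^ m) hk0.le t ht
            show a - 2 / 2 ^ (m + 1) < t ∧ t ≤ a + 2 / 2 ^ (m + 1)
            rw [hk3]
            exact ⟨by linarith [this.1], this.2⟩
        · refine ⟨W_meas _ _ _, fun t => ?_, W_int _ _ _ (by linarith) hk0.le (by linarith), ?_, hab,
            le_rfl, fun t ht => ?_⟩
          · have := W_bd (b - 2 * k) k (-2 ^ m) t
            show |W (b - 2 * k) k (-2 ^ m) t| ≤ 4 * 2 ^ (m + 1)
            rw [hv] at this
            rw [hs]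
            linarith
          · show ∫ t in (0 : ℝ)..1, W (b - 2 * k) k (-2 ^ m) t ^ 2 ≤ 16 * 2 ^ (m + 1)
            rw [W_int_sq _ _ _ (by linarith) hk0.le (by linarith), hv2, hs]
            linarith
          · have := W_supp (b - 2 * k) k (-2 ^ m) hk0.le t ht
            show b - 2 / 2 ^ (m + 1) < t ∧ t ≤ b + 2 / 2 ^ (m + 1)
            rw [hk3]
            exact ⟨by linarith [this.1], by linarith [this.2]⟩
    · apply one_piece a b ha hab hb (m + 1)
      intro t ht
      have h : du a b (m + 1) t ≠ 0 := by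
        intro h0
        apply ht
        unfold Pool.Agent.H36.KD.dpsi
        rw [if_neg (Nat.succ_ne_zero m), Nat.add_sub_cancel, h0]
        unfold Pool.Agent.H36.KD.du
        rw [if_neg hm, sub_zero]
      have hba : b - a < 2 * k := by
        rw [not_le] at hm
        rw [← hk2, lt_div_iff₀ h2, mul_comm]
        exact hm
      unfold Pool.Agent.H36.KD.du at h
      rw [hk3]
      rw [← hk] at h
      by_contra hcon
      apply h
      rw [if_neg (show ¬ (b - k < t ∧ t ≤ b) from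
          fun h1 => hcon ⟨by linarith [h1.1], by linarith [h1.2]⟩),
        if_neg (show ¬ (a < t ∧ t ≤ a + k) from
          fun h1 => hcon ⟨by linarith [h1.1], by linarith [h1.2]⟩)]
      simp

end Pool.Agent.H36.KI
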