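import Pool.Agent.H36.KI.Defs

set_option autoImplicit false

/-!
# [H36 KI Csum] sum of the costs
-/

namespace Pool.Agent.H36.KI

open Finset
open Pool.Agent.H36.KD (idx)

private lemma lg_ge {N : ℕ} (hN : 1 ≤ N) : 1 ≤ lg N := by
  unfold lg
  have : 0 ≤ Real.log N := Real.log_nonneg (by exact_mod_cast hN)
  linarith

private lemma sqrt_ee (n Y g τ : ℝ) (hn : 0 ≤ n) (hY : 0 ≤ Y) (hg : 0 ≤ g) (hτ : 0 ≤ τ) :
    Real.sqrt (τ * (n * τ + Y) * g) ≤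
      Real.sqrt g * (Real.sqrt n * τ + Real.sqrt Y * Real.sqrt τ) := by
  rw [Real.sqrt_le_iff]
  refine ⟨by positivity, ?_⟩
  have h1 := Real.sq_sqrt hg
  have h2 := Real.sq_sqrt hn
  have h3 := Real.sq_sqrt hY
  have h4 := Real.sq_sqrt hτ
  have e : (Real.sqrt g * (Real.sqrt n * τ + Real.sqrt Y * Real.sqrt τ)) ^ 2 =
      Real.sqrt g ^ 2 * (Real.sqrt n ^ 2 * τ ^ 2 + 2 * (Real.sqrt n * τ * Real.sqrt Y * Real.sqrt τ) +
        Real.sqrt Y ^ 2 * Real.sqrt τ ^ 2) := by ring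
  rw [e, h1, h2, h3, h4]
  have h5 : 0 ≤ g * (2 * (Real.sqrt n * τ * Real.sqrt Y * Real.sqrt τ)) := by positivity
  nlinarith

private lemma prod_eq (k : ℕ) (l : Fin (k + 1) → ℕ) :
    ∏ r, Real.sqrt 2 ^ l r = (2 : ℝ) ^ (((∑ r, l r : ℕ) : ℝ) / 2) := by
  rw [Finset.prod_pow_eq_pow_sum, Real.sqrt_eq_rpow, ← Real.rpow_natCast, ← Real.rpow_mul (by norm_num)]
  congr 1
  ring

/-- sum of the costs, dimension `d = k + 1 ≥ 2`; `l s` is the largest entry of `l` -/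
theorem csum (k L N : ℕ) (hk : 1 ≤ k) (hN : 1 ≤ N) (s : (Fin (k + 1) → ℕ) → Fin (k + 1))
    (hs : ∀ (l : Fin (k + 1) → ℕ) (r : Fin (k + 1)), l r ≤ l (s l)) :
    ∑ l ∈ (idx (k + 1) L).filter (fun l => ∑ r, l r ≤ L),
        Real.sqrt (ee k N (1 / 2 ^ l (s l))) * ∏ r, Real.sqrt 2 ^ l r ≤
      ((L : ℝ) + 1) ^ (k + 1) * Real.sqrt (lg N) *
        (Real.sqrt N * (2 : ℝ) ^ ((L : ℝ) * (1 / 2 - 1 / ((k : ℝ) + 1))) +
          Real.sqrt (YY k N) * (2 : ℝ) ^ ((L : ℝ) * (1 / 2 - 1 / (2 * ((k : ℝ) + 1))))) := by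
  have hlg := lg_ge hN
  have hN0 : (0 : ℝ) ≤ N := Nat.cast_nonneg N
  have hY0 : 0 ≤ YY k N := by
    unfold YY
    positivity
  have hkR : (1 : ℝ) ≤ k := by exact_mod_cast hk
  obtain ⟨B, hB⟩ : ∃ B : ℝ, B = Real.sqrt (lg N) *
        (Real.sqrt N * (2 : ℝ) ^ ((L : ℝ) * (1 / 2 - 1 / ((k : ℝ) + 1))) +
          Real.sqrt (YY k N) * (2 : ℝ) ^ ((L : ℝ) * (1 / 2 - 1 / (2 * ((k : ℝ) + 1))))) := ⟨_, rfl⟩
  have hB0 : 0 ≤ B := by rw [hB]; positivity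
  have hterm : ∀ l ∈ (idx (k + 1) L).filter (fun l => ∑ r, l r ≤ L),
      Real.sqrt (ee k N (1 / 2 ^ l (s l))) * ∏ r, Real.sqrt 2 ^ l r ≤ B := by
    intro l hl
    have hS := (mem_filter.mp hl).2
    obtain ⟨S, hSd⟩ : ∃ S : ℝ, S = ((∑ r, l r : ℕ) : ℝ) := ⟨_, rfl⟩
    obtain ⟨M, hM⟩ : ∃ M : ℝ, M = (l (s l) : ℝ) := ⟨_, rfl⟩
    have hS0 : 0 ≤ S := by rw [hSd]; positivity
    have hSL : S ≤ L := by rw [hSd]; exact_mod_cast hS
    have hSM : S ≤ ((k : ℝ) + 1) * M := by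
      have h1 : ∑ r, l r ≤ (k + 1) * l (s l) := by
        have h2 := Finset.sum_le_card_nsmul (univ : Finset (Fin (k + 1))) l (l (s l)) fun r _ => hs l r
        simpa using h2
      rw [hSd, hM]
      exact_mod_cast h1
    have hMS : S / ((k : ℝ) + 1) ≤ M := by
      rw [div_le_iff₀ (by positivity)]
      linarith
    have hτ : (1 : ℝ) / 2 ^ l (s l) = (2 : ℝ) ^ (-M) := by
      rw [Real.rpow_neg (by norm_num), hM, Real.rpow_natCast, one_div]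
    have hτ2 : Real.sqrt ((2 : ℝ) ^ (-M)) = (2 : ℝ) ^ (-M / 2) := by
      rw [Real.sqrt_eq_rpow, ← Real.rpow_mul (by norm_num)]
      congr 1
      ring
    rw [prod_eq, ← hSd, hτ]
    unfold ee
    have h1 := sqrt_ee N (YY k N) (lg N) ((2 : ℝ) ^ (-M)) hN0 hY0 (by linarith) (by positivity)
    have hp : (0 : ℝ) ≤ (2 : ℝ) ^ (S / 2) := by positivity
    have e1 : (2 : ℝ) ^ (-M) * (2 : ℝ) ^ (S / 2) ≤ (2 : ℝ) ^ ((L : ℝ) * (1 / 2 - 1 / ((k : ℝ) + 1))) := by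
      rw [← Real.rpow_add (by norm_num)]
      apply Real.rpow_le_rpow_of_exponent_le (by norm_num)
      have h2 : -M + S / 2 ≤ S * (1 / 2 - 1 / ((k : ℝ) + 1)) := by
        have : S * (1 / 2 - 1 / ((k : ℝ) + 1)) = S / 2 - S / ((k : ℝ) + 1) := by ring
        rw [this]
        linarith
      have h3 : 0 ≤ (1 / 2 - 1 / ((k : ℝ) + 1)) := by
        have : 1 / ((k : ℝ) + 1) ≤ 1 / 2 := by
          apply one_div_le_one_div_of_le (by norm_num)
          linarith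
        linarith
      exact h2.trans (mul_le_mul_of_nonneg_right hSL h3)
    have e2 : (2 : ℝ) ^ (-M / 2) * (2 : ℝ) ^ (S / 2) ≤
        (2 : ℝ) ^ ((L : ℝ) * (1 / 2 - 1 / (2 * ((k : ℝ) + 1)))) := by
      rw [← Real.rpow_add (by norm_num)]
      apply Real.rpow_le_rpow_of_exponent_le (by norm_num)
      have h2 : -M / 2 + S / 2 ≤ S * (1 / 2 - 1 / (2 * ((k : ℝ) + 1))) := by
        have : S * (1 / 2 - 1 / (2 * ((k : ℝ) + 1))) = S / 2 - S / ((k : ℝ) + 1) / 2 := by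
          field_simp
        rw [this]
        linarith
      have h3 : 0 ≤ (1 / 2 - 1 / (2 * ((k : ℝ) + 1))) := by
        have : 1 / (2 * ((k : ℝ) + 1)) ≤ 1 / 2 := by
          apply one_div_le_one_div_of_le (by norm_num)
          linarith
        linarith
      exact h2.trans (mul_le_mul_of_nonneg_right hSL h3)
    calc _ ≤ Real.sqrt (lg N) * (Real.sqrt N * (2 : ℝ) ^ (-M) +
          Real.sqrt (YY k N) * Real.sqrt ((2 : ℝ) ^ (-M))) * (2 : ℝ) ^ (S / 2) :=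
        mul_le_mul_of_nonneg_right h1 hp
      _ = Real.sqrt (lg N) * (Real.sqrt N * ((2 : ℝ) ^ (-M) * (2 : ℝ) ^ (S / 2)) +
          Real.sqrt (YY k N) * ((2 : ℝ) ^ (-M / 2) * (2 : ℝ) ^ (S / 2))) := by
        rw [hτ2]; ring
      _ ≤ B := by
        rw [hB]
        apply mul_le_mul_of_nonneg_left _ (Real.sqrt_nonneg _)
        exact add_le_add (mul_le_mul_of_nonneg_left e1 (Real.sqrt_nonneg _))
          (mul_le_mul_of_nonneg_left e2 (Real.sqrt_nonneg _))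
  have hcard : (((idx (k + 1) L).filter (fun l => ∑ r, l r ≤ L)).card : ℝ) ≤ ((L : ℝ) + 1) ^ (k + 1) := by
    have h1 : ((idx (k + 1) L).filter (fun l => ∑ r, l r ≤ L)).card ≤ (L + 1) ^ (k + 1) := by
      refine (card_filter_le _ _).trans ?_
      unfold Pool.Agent.H36.KD.idx
      rw [Fintype.card_piFinset]
      simp
    exact_mod_cast h1
  calc _ ≤ ∑ _l ∈ (idx (k + 1) L).filter (fun l => ∑ r, l r ≤ L), B := sum_le_sum hterm
    _ = (((idx (k + 1) L).filter (fun l => ∑ r, l r ≤ L)).card : ℝ) * B := by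
      rw [sum_const, nsmul_eq_mul]
    _ ≤ ((L : ℝ) + 1) ^ (k + 1) * B := mul_le_mul_of_nonneg_right hcard hB0
    _ = _ := by rw [hB]; ring

end Pool.Agent.H36.KI
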