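import Pool.Agent.H36.KD.Main
import Pool.Agent.H47.KZ.Growth
import Pool.Agent.H47.KZ.Stage

set_option autoImplicit false

/-!
# [H36 KI Defs] boxes away from the upper faces: definitions
-/

namespace Pool.Agent.H36.KI

open Finset MeasureTheory

/-- trapezoid error -/
noncomputable def TB (S : ℝ → ℝ) (a τ : ℝ) : ℝ :=
  τ * (S (a + τ) + S (a - τ)) - ∫ t in (a - τ)..(a + τ), S t

/-- `1 + log N` -/
noncomputable def lg (N : ℕ) : ℝ := 1 + Real.log N

/-- `N^{2/3} (1 + log N)^k` -/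
noncomputable def YY (k N : ℕ) : ℝ := (N : ℝ) ^ (2 / 3 : ℝ) * lg N ^ k

/-- bound for the energy of a slab of half-width `τ` -/
noncomputable def ee (k N : ℕ) (τ : ℝ) : ℝ := τ * (N * τ + YY k N) * lg N

end Pool.Agent.H36.KI
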