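import Pool.Agent.H36.KI.Cost
import Pool.Agent.H36.KI.Minor2
import Pool.Agent.H36.KI.Csum
import Pool.Agent.H36.KI.Top

set_option autoImplicit false

/-!
# [H36 KI Final] boxes away from the upper faces: final assembly
-/

namespace Pool.Agent.H36.KI

open Finset
open Pool.Agent.H47.KZ (IsKritzinger)
open Pool.Agent.H36.KD (mu en en_le en_nonneg S2 S2_le idx)

/-- lower bound for all boxes away from the upper faces -/
theorem lowbd (k m : ℕ) (hk : 1 ≤ k) (κ : ℝ) (hκ : 0 < κ) (hκ1 : κ ≤ 1) :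
    ∃ C : ℝ, 0 ≤ C ∧ ∀ z : ℕ → Fin (k + 1) → ℝ, IsKritzinger (k + 1) m z →
    ∀ N : ℕ, m ≤ N → 2 ≤ N → ∀ a b : Fin (k + 1) → ℝ, (∀ r, 0 ≤ a r ∧ a r ≤ b r ∧ b r ≤ 1 - κ) →
      -(C * (lg N ^ (2 * (k + 1)) * (N : ℝ) ^ (2 * (k : ℝ) / (3 * k + 1)))) ≤ mu z N a b := by
  obtain ⟨C, hC, hcost⟩ := cost k m κ hκ hκ1
  refine ⟨((k : ℝ) + 1 + 2 ^ (k + 1)) * 2 ^ (k + 1) + C * 2 ^ (k + 2), by positivity, ?_⟩
  intro z h N hm hN a b hab
  have hz : ∀ j r, 0 ≤ z j r ∧ z j r < 1 := fun j r => h.mem j r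
  have hNR : (2 : ℝ) ≤ N := by exact_mod_cast hN
  have hN1 : 1 ≤ N := by omega
  have hN1R : (1 : ℝ) ≤ N := by linarith
  have hN0R : (0 : ℝ) < N := by linarith
  have hkR : (1 : ℝ) ≤ k := by exact_mod_cast hk
  have hlg := lg_ge_one hN1
  have hlog2' : (1 : ℝ) / 2 ≤ Real.log 2 := by linarith [Real.log_two_gt_d9]
  obtain ⟨α, hα⟩ : ∃ α : ℝ, α = ((k : ℝ) + 1) / (3 * k + 1) := ⟨_, rfl⟩
  obtain ⟨β, hβ⟩ : ∃ β : ℝ, β = 2 * (k : ℝ) / (3 * k + 1) := ⟨_, rfl⟩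
  have hα0 : 0 ≤ α := by rw [hα]; positivity
  have hαβ : β + α = 1 := by rw [hα, hβ]; field_simp; ring
  have hα1 : α ≤ 1 := by
    have : 0 ≤ β := by rw [hβ]; positivity
    linarith
  rw [← hβ]
  obtain ⟨R, hR⟩ : ∃ R : ℝ, R = (N : ℝ) ^ α := ⟨_, rfl⟩
  have hR1 : 1 ≤ R := by rw [hR]; exact Real.one_le_rpow hN1R hα0
  have hR0 : 0 < R := by linarith
  have hRN : R ≤ N := by
    rw [hR]
    exact (Real.rpow_le_rpow_of_exponent_le hN1R hα1).trans (le_of_eq (Real.rpow_one _))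
  obtain ⟨B, hB⟩ : ∃ B : ℝ, B = (N : ℝ) ^ β := ⟨_, rfl⟩
  have hB0 : 0 < B := by rw [hB]; exact Real.rpow_pos_of_pos hN0R _
  rw [← hB]
  have hBR : B * R = N := by
    rw [hB, hR, ← Real.rpow_add hN0R, hαβ, Real.rpow_one]
  obtain ⟨L, hL⟩ : ∃ L : ℕ, L = Nat.log 2 ⌊R⌋₊ := ⟨_, rfl⟩
  have hfl : 1 ≤ ⌊R⌋₊ := Nat.le_floor (by exact_mod_cast hR1)
  have hL1 : (2 : ℝ) ^ L ≤ R := by
    have h1 : 2 ^ L ≤ ⌊R⌋₊ := by rw [hL]; exact Nat.pow_log_le_self 2 (by omega)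
    have h2 : ((2 ^ L : ℕ) : ℝ) ≤ R := (Nat.cast_le.2 h1).trans (Nat.floor_le hR0.le)
    exact_mod_cast h2
  have hL2 : R < 2 ^ (L + 1) := by
    have h1 : ⌊R⌋₊ < 2 ^ (L + 1) := by rw [hL]; exact Nat.lt_pow_succ_log_self (by norm_num) _
    have h2 := (Nat.floor_lt hR0.le).1 h1
    exact_mod_cast h2
  have hT0 : (0 : ℝ) < 2 ^ L := by positivity
  have hLN : (L : ℝ) + 1 ≤ 2 * lg N := by
    have h1 : (L : ℝ) * Real.log 2 ≤ Real.log N := by
      have h2 : Real.log ((2 : ℝ) ^ L) ≤ Real.log N :=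
        Real.log_le_log hT0 (hL1.trans hRN)
      rwa [Real.log_pow] at h2
    have h3 : (L : ℝ) * (1 / 2) ≤ L * Real.log 2 :=
      mul_le_mul_of_nonneg_left hlog2' (Nat.cast_nonneg L)
    unfold lg
    linarith
  have hL0 : (0 : ℝ) ≤ L := Nat.cast_nonneg L
  -- the coordinate with the largest entry
  have hex : ∀ l : Fin (k + 1) → ℕ, ∃ r, ∀ r', l r' ≤ l r := fun l => by
    obtain ⟨r, _, hr⟩ := exists_max_image univ l univ_nonempty
    exact ⟨r, fun r' => hr r' (mem_univ _)⟩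
  choose s hs using hex
  have hmin := minor2 z hz N L a b
    (fun r => ⟨(hab r).1, (hab r).2.1, (hab r).2.2.trans (by linarith)⟩)
    (fun l => C * Real.sqrt (ee k N (1 / 2 ^ l (s l))) * ∏ r, Real.sqrt 2 ^ l r)
    (fun l hl => by
      refine hcost z h N hm hN a b hab l (s l) ?_
      have h1 : l (s l) ≤ L := by
        have h2 : l (s l) ≤ ∑ r, l r := single_le_sum (fun r _ => Nat.zero_le _) (mem_univ (s l))
        exact h2.trans (mem_filter.1 hl).2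
      have h2 : (2 : ℝ) ^ l (s l) ≤ 2 ^ L := pow_le_pow_right₀ (by norm_num) h1
      exact h2.trans (hL1.trans hRN))
  refine le_trans ?_ hmin
  rw [neg_le_neg_iff]
  have hcs := csum k L N hk hN1 s hs
  have hP2 : (1 : ℝ) ≤ lg N ^ (k + 1) := one_le_pow₀ hlg
  have hNL : (N : ℝ) / 2 ^ L ≤ 2 * B := by
    rw [div_le_iff₀ hT0, ← hBR]
    rw [pow_succ] at hL2
    nlinarith
  have e1 : (1 / 2 : ℝ) ^ L = 1 / 2 ^ L := by rw [one_div_pow]
  have hLk : (1 : ℝ) ≤ ((L : ℝ) + 1) ^ k := one_le_pow₀ (by linarith)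
  have hlk : ((L : ℝ) + 1) ^ k ≤ 2 ^ k * lg N ^ (2 * (k + 1)) := by
    calc ((L : ℝ) + 1) ^ k ≤ (2 * lg N) ^ k := pow_le_pow_left₀ (by positivity) hLN _
      _ = 2 ^ k * lg N ^ k := mul_pow _ _ _
      _ ≤ 2 ^ k * lg N ^ (2 * (k + 1)) :=
          mul_le_mul_of_nonneg_left (pow_le_pow_right₀ hlg (by omega)) (by positivity)
  have p1 : (N : ℝ) * (((k : ℝ) + 1) * (1 / 2) ^ L + S2 (k + 1) L) ≤
      ((k : ℝ) + 1 + 2 ^ (k + 1)) * 2 ^ (k + 1) * (lg N ^ (2 * (k + 1)) * B) := by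
    have hS2 := S2_le k L
    have h1 : ((k : ℝ) + 1) * (1 / 2) ^ L + S2 (k + 1) L ≤
        ((k : ℝ) + 1 + 2 ^ (k + 1)) * ((L : ℝ) + 1) ^ k * (1 / 2) ^ L := by
      have h2 : ((k : ℝ) + 1) * (1 / 2) ^ L ≤ ((k : ℝ) + 1) * ((L : ℝ) + 1) ^ k * (1 / 2) ^ L := by
        apply mul_le_mul_of_nonneg_right _ (by positivity)
        exact le_mul_of_one_le_right (by positivity) hLk
      linarith
    calc (N : ℝ) * (((k : ℝ) + 1) * (1 / 2) ^ L + S2 (k + 1) L) ≤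
        N * (((k : ℝ) + 1 + 2 ^ (k + 1)) * ((L : ℝ) + 1) ^ k * (1 / 2) ^ L) :=
          mul_le_mul_of_nonneg_left h1 (by linarith)
      _ = ((k : ℝ) + 1 + 2 ^ (k + 1)) * (((L : ℝ) + 1) ^ k * (N / 2 ^ L)) := by rw [e1]; ring
      _ ≤ ((k : ℝ) + 1 + 2 ^ (k + 1)) * ((2 ^ k * lg N ^ (2 * (k + 1))) * (2 * B)) := by
          apply mul_le_mul_of_nonneg_left _ (by positivity)
          exact mul_le_mul hlk hNL (by positivity) (by positivity)
      _ = _ := by ring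
  -- powers
  have q1 : Real.sqrt N * (2 : ℝ) ^ ((L : ℝ) * (1 / 2 - 1 / ((k : ℝ) + 1))) ≤ B := by
    have hx : 0 ≤ 1 / 2 - 1 / ((k : ℝ) + 1) := by
      have : 1 / ((k : ℝ) + 1) ≤ 1 / 2 := one_div_le_one_div_of_le (by norm_num) (by linarith)
      linarith
    have h1 : (2 : ℝ) ^ ((L : ℝ) * (1 / 2 - 1 / ((k : ℝ) + 1))) ≤
        (N : ℝ) ^ (α * (1 / 2 - 1 / ((k : ℝ) + 1))) := by
      rw [Real.rpow_mul (by norm_num), Real.rpow_natCast, Real.rpow_mul hN0R.le, ← hR]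
      exact Real.rpow_le_rpow (by positivity) hL1 hx
    calc Real.sqrt N * (2 : ℝ) ^ ((L : ℝ) * (1 / 2 - 1 / ((k : ℝ) + 1))) ≤
        Real.sqrt N * (N : ℝ) ^ (α * (1 / 2 - 1 / ((k : ℝ) + 1))) :=
          mul_le_mul_of_nonneg_left h1 (Real.sqrt_nonneg _)
      _ = B := by
          rw [Real.sqrt_eq_rpow, ← Real.rpow_add hN0R, hB]
          congr 1
          rw [hα, hβ]
          field_simp
          ring
  have q2 : Real.sqrt (YY k N) * (2 : ℝ) ^ ((L : ℝ) * (1 / 2 - 1 / (2 * ((k : ℝ) + 1)))) ≤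
      lg N ^ k * B := by
    have hx : 0 ≤ 1 / 2 - 1 / (2 * ((k : ℝ) + 1)) := by
      have : 1 / (2 * ((k : ℝ) + 1)) ≤ 1 / 2 := one_div_le_one_div_of_le (by norm_num) (by linarith)
      linarith
    have h1 : (2 : ℝ) ^ ((L : ℝ) * (1 / 2 - 1 / (2 * ((k : ℝ) + 1)))) ≤
        (N : ℝ) ^ (α * (1 / 2 - 1 / (2 * ((k : ℝ) + 1)))) := by
      rw [Real.rpow_mul (by norm_num), Real.rpow_natCast, Real.rpow_mul hN0R.le, ← hR]
      exact Real.rpow_le_rpow (by positivity) hL1 hx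
    have h2 : Real.sqrt (YY k N) ≤ lg N ^ k * (N : ℝ) ^ (1 / 3 : ℝ) := by
      refine Real.sqrt_le_iff.mpr ⟨by positivity, ?_⟩
      have h3 : ((N : ℝ) ^ (1 / 3 : ℝ)) ^ 2 = (N : ℝ) ^ (2 / 3 : ℝ) := by
        rw [← Real.rpow_natCast, ← Real.rpow_mul hN0R.le]
        norm_num
      unfold YY
      rw [mul_pow, h3, mul_comm]
      apply mul_le_mul_of_nonneg_right _ (by positivity)
      exact le_self_pow₀ (one_le_pow₀ hlg) (by norm_num)
    calc Real.sqrt (YY k N) * (2 : ℝ) ^ ((L : ℝ) * (1 / 2 - 1 / (2 * ((k : ℝ) + 1)))) ≤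
        (lg N ^ k * (N : ℝ) ^ (1 / 3 : ℝ)) * (N : ℝ) ^ (α * (1 / 2 - 1 / (2 * ((k : ℝ) + 1)))) :=
          mul_le_mul h2 h1 (by positivity) (by positivity)
      _ = lg N ^ k * (N : ℝ) ^ (1 / 3 + α * (1 / 2 - 1 / (2 * ((k : ℝ) + 1)))) := by
          rw [mul_assoc, ← Real.rpow_add hN0R]
      _ ≤ lg N ^ k * B := by
          apply mul_le_mul_of_nonneg_left _ (by positivity)
          rw [hB]
          apply Real.rpow_le_rpow_of_exponent_le hN1R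
          have e : β - (1 / 3 + α * (1 / 2 - 1 / (2 * ((k : ℝ) + 1)))) =
              (3 * k - 2) / (6 * (3 * k + 1)) := by
            rw [hα, hβ]
            field_simp
            ring
          have : 0 ≤ (3 * (k : ℝ) - 2) / (6 * (3 * k + 1)) := by
            apply div_nonneg <;> linarith
          linarith
  have hsq : Real.sqrt (lg N) ≤ lg N := by
    refine Real.sqrt_le_iff.mpr ⟨by linarith, ?_⟩
    nlinarith
  have p2 : ∑ l ∈ (idx (k + 1) L).filter (fun l => ∑ r, l r ≤ L),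
      C * Real.sqrt (ee k N (1 / 2 ^ l (s l))) * ∏ r, Real.sqrt 2 ^ l r ≤
      C * 2 ^ (k + 2) * (lg N ^ (2 * (k + 1)) * B) := by
    have e : ∑ l ∈ (idx (k + 1) L).filter (fun l => ∑ r, l r ≤ L),
        C * Real.sqrt (ee k N (1 / 2 ^ l (s l))) * ∏ r, Real.sqrt 2 ^ l r =
        C * ∑ l ∈ (idx (k + 1) L).filter (fun l => ∑ r, l r ≤ L),
          Real.sqrt (ee k N (1 / 2 ^ l (s l))) * ∏ r, Real.sqrt 2 ^ l r := by
      rw [mul_sum]
      exact sum_congr rfl fun l _ => by ring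
    rw [e, mul_assoc C]
    apply mul_le_mul_of_nonneg_left _ hC
    refine hcs.trans ?_
    have h1 : ((L : ℝ) + 1) ^ (k + 1) ≤ (2 * lg N) ^ (k + 1) :=
      pow_le_pow_left₀ (by positivity) hLN _
    have h2 : Real.sqrt N * (2 : ℝ) ^ ((L : ℝ) * (1 / 2 - 1 / ((k : ℝ) + 1))) +
        Real.sqrt (YY k N) * (2 : ℝ) ^ ((L : ℝ) * (1 / 2 - 1 / (2 * ((k : ℝ) + 1)))) ≤
        2 * (lg N ^ k * B) := by
      have h3 : B ≤ lg N ^ k * B := le_mul_of_one_le_left hB0.le (one_le_pow₀ hlg)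
      linarith
    calc ((L : ℝ) + 1) ^ (k + 1) * Real.sqrt (lg N) *
        (Real.sqrt N * (2 : ℝ) ^ ((L : ℝ) * (1 / 2 - 1 / ((k : ℝ) + 1))) +
          Real.sqrt (YY k N) * (2 : ℝ) ^ ((L : ℝ) * (1 / 2 - 1 / (2 * ((k : ℝ) + 1))))) ≤
        ((2 * lg N) ^ (k + 1) * lg N) * (2 * (lg N ^ k * B)) := by
          apply mul_le_mul _ h2 (by positivity) (by positivity)
          exact mul_le_mul h1 hsq (Real.sqrt_nonneg _) (by positivity)
      _ = 2 ^ (k + 2) * (lg N ^ (2 * (k + 1)) * B) := by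
          rw [mul_pow]
          ring
  have e4 : (((k : ℝ) + 1 + 2 ^ (k + 1)) * 2 ^ (k + 1) + C * 2 ^ (k + 2)) *
      (lg N ^ (2 * (k + 1)) * B) =
      ((k : ℝ) + 1 + 2 ^ (k + 1)) * 2 ^ (k + 1) * (lg N ^ (2 * (k + 1)) * B) +
      C * 2 ^ (k + 2) * (lg N ^ (2 * (k + 1)) * B) := by ring
  rw [e4]
  exact add_le_add p1 p2

/-- boxes with a corner at the origin, away from the upper faces -/
theorem final (k m : ℕ) (hk : 1 ≤ k) (κ : ℝ) (hκ : 0 < κ) (hκ1 : κ ≤ 1) :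
    ∃ C : ℝ, ∀ z : ℕ → Fin (k + 1) → ℝ, IsKritzinger (k + 1) m z →
    ∀ N : ℕ, 2 ≤ N → ∀ q : Fin (k + 1) → ℝ, (∀ r, 0 ≤ q r ∧ q r ≤ 1 - κ) →
      |(((range N).filter (fun i => ∀ r, z i r < q r)).card : ℝ) / N - ∏ r, q r| ≤
        C * Real.log N ^ (2 * (k + 1)) / (N : ℝ) ^ (((k : ℝ) + 1) / (3 * k + 1)) := by
  obtain ⟨C, hC, hlow⟩ := lowbd k m hk (κ / 2) (by linarith) (by linarith)
  obtain ⟨A, hA⟩ : ∃ A : ℝ, A = (2 / κ) ^ (k + 1) * Real.sqrt (2 * m ^ 2 + 1) + ((k : ℝ) + 1) * C :=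
    ⟨_, rfl⟩
  have hA0 : 0 ≤ A := by rw [hA]; positivity
  have hlog2' : (1 : ℝ) / 2 ≤ Real.log 2 := by linarith [Real.log_two_gt_d9]
  have hlog2 : (0 : ℝ) < Real.log 2 := by linarith
  refine ⟨m / Real.log 2 ^ (2 * (k + 1)) + A * 3 ^ (2 * (k + 1)), ?_⟩
  intro z h N hN q hq
  have hz : ∀ j r, 0 ≤ z j r ∧ z j r < 1 := fun j r => h.mem j r
  have hNR : (2 : ℝ) ≤ N := by exact_mod_cast hN
  have hN1 : 1 ≤ N := by omega
  have hN1R : (1 : ℝ) ≤ N := by linarith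
  have hN0R : (0 : ℝ) < N := by linarith
  have hkR : (1 : ℝ) ≤ k := by exact_mod_cast hk
  have hlg := lg_ge_one hN1
  have hlogN : Real.log 2 ≤ Real.log N := Real.log_le_log (by norm_num) hNR
  have hlogN0 : 0 < Real.log N := by linarith
  obtain ⟨α, hα⟩ : ∃ α : ℝ, α = ((k : ℝ) + 1) / (3 * k + 1) := ⟨_, rfl⟩
  obtain ⟨β, hβ⟩ : ∃ β : ℝ, β = 2 * (k : ℝ) / (3 * k + 1) := ⟨_, rfl⟩
  have hα0 : 0 ≤ α := by rw [hα]; positivity
  have hαβ : β + α = 1 := by rw [hα, hβ]; field_simp; ring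
  have hβ2 : 1 / 2 ≤ β := by
    rw [hβ, div_le_div_iff₀ (by norm_num) (by positivity)]
    linarith
  rw [← hα]
  rw [← hβ] at hlow
  have hNα : 0 < (N : ℝ) ^ α := Real.rpow_pos_of_pos hN0R _
  have hq0 : ∀ r, 0 ≤ q r := fun r => (hq r).1
  have hq1 : ∀ r, q r ≤ 1 := fun r => (hq r).2.trans (by linarith)
  have e : (((range N).filter (fun i => ∀ r, z i r < q r)).card : ℝ) / N
      - ∏ r, q r = mu z N 0 q / N := by
    have e1 : (range N).filter (fun i => ∀ r, z i r < q r) =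
        (range N).filter (fun i => ∀ r, (0 : Fin (k + 1) → ℝ) r ≤ z i r ∧ z i r < q r) := by
      apply filter_congr
      intro i _
      exact ⟨fun h1 r => ⟨(hz i r).1, h1 r⟩, fun h1 r => (h1 r).2⟩
    rw [e1]
    unfold mu
    simp only [Pi.zero_apply, sub_zero]
    field_simp
  by_cases hbig : m ≤ N
  · have hM0 : 0 ≤ C * (lg N ^ (2 * (k + 1)) * (N : ℝ) ^ β) := by positivity
    have ht := top z hz N (1 - κ) (1 - κ / 2) (by linarith) (by linarith) (by linarith)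
      (C * (lg N ^ (2 * (k + 1)) * (N : ℝ) ^ β)) hM0 (hlow z h N hbig hN) q hq
    obtain ⟨t1, t2⟩ := ht
    have hB0 : 0 < (N : ℝ) ^ β := Real.rpow_pos_of_pos hN0R _
    have hpw : (1 : ℝ) ≤ lg N ^ (2 * (k + 1)) := one_le_pow₀ hlg
    have hen : Real.sqrt (en z N) ≤ Real.sqrt (2 * m ^ 2 + 1) * (lg N ^ (2 * (k + 1)) * (N : ℝ) ^ β) := by
      have h5 := en_le h N hbig
      have h6 : (2 * (m : ℝ) ^ 2 + N) ≤ (2 * m ^ 2 + 1) * N := by
        have : 0 ≤ (m : ℝ) ^ 2 := by positivity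
        nlinarith
      have h7 : Real.sqrt N ≤ (N : ℝ) ^ β := by
        rw [Real.sqrt_eq_rpow]
        exact Real.rpow_le_rpow_of_exponent_le hN1R hβ2
      have h8 : (N : ℝ) ^ β ≤ lg N ^ (2 * (k + 1)) * (N : ℝ) ^ β :=
        le_mul_of_one_le_left hB0.le hpw
      calc Real.sqrt (en z N) ≤ Real.sqrt ((2 * m ^ 2 + 1) * N) := Real.sqrt_le_sqrt (h5.trans h6)
        _ = Real.sqrt (2 * m ^ 2 + 1) * Real.sqrt N := Real.sqrt_mul (by positivity) _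
        _ ≤ _ := mul_le_mul_of_nonneg_left (h7.trans h8) (Real.sqrt_nonneg _)
    have e2 : (1 - κ / 2 - (1 - κ)) = κ / 2 := by ring
    have e3 : 1 / (κ / 2) = 2 / κ := by field_simp
    rw [e2, e3] at t2
    have h9 : (2 / κ) ^ (k + 1) * Real.sqrt (en z N) ≤
        (2 / κ) ^ (k + 1) * (Real.sqrt (2 * m ^ 2 + 1) * (lg N ^ (2 * (k + 1)) * (N : ℝ) ^ β)) :=
      mul_le_mul_of_nonneg_left hen (by positivity)
    have hmu : |mu z N 0 q| ≤ A * (lg N ^ (2 * (k + 1)) * (N : ℝ) ^ β) := by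
      have h10 : A * (lg N ^ (2 * (k + 1)) * (N : ℝ) ^ β) =
          (2 / κ) ^ (k + 1) * (Real.sqrt (2 * m ^ 2 + 1) * (lg N ^ (2 * (k + 1)) * (N : ℝ) ^ β)) +
          ((k : ℝ) + 1) * (C * (lg N ^ (2 * (k + 1)) * (N : ℝ) ^ β)) := by
        rw [hA]; ring
      have h11 : 0 ≤ (2 / κ) ^ (k + 1) *
          (Real.sqrt (2 * m ^ 2 + 1) * (lg N ^ (2 * (k + 1)) * (N : ℝ) ^ β)) := by positivity
      have h12 : 0 ≤ (k : ℝ) * (C * (lg N ^ (2 * (k + 1)) * (N : ℝ) ^ β)) := by positivity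
      push_cast at t2
      rw [h10, abs_le]
      constructor
      · linarith
      · linarith
    rw [e, abs_div, abs_of_pos hN0R, div_le_div_iff₀ hN0R hNα]
    have h13 : lg N ≤ 3 * Real.log N := by
      unfold lg
      linarith
    have h14 : lg N ^ (2 * (k + 1)) ≤ 3 ^ (2 * (k + 1)) * Real.log N ^ (2 * (k + 1)) := by
      rw [← mul_pow]
      exact pow_le_pow_left₀ (by linarith) h13 _
    have h15 : (N : ℝ) ^ β * (N : ℝ) ^ α = N := by
      rw [← Real.rpow_add hN0R, hαβ, Real.rpow_one]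
    calc |mu z N 0 q| * (N : ℝ) ^ α ≤ A * (lg N ^ (2 * (k + 1)) * (N : ℝ) ^ β) * (N : ℝ) ^ α :=
          mul_le_mul_of_nonneg_right hmu hNα.le
      _ = A * lg N ^ (2 * (k + 1)) * ((N : ℝ) ^ β * (N : ℝ) ^ α) := by ring
      _ = A * lg N ^ (2 * (k + 1)) * N := by rw [h15]
      _ ≤ A * (3 ^ (2 * (k + 1)) * Real.log N ^ (2 * (k + 1))) * N := by
          apply mul_le_mul_of_nonneg_right _ hN0R.le
          exact mul_le_mul_of_nonneg_left h14 hA0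
      _ ≤ _ := by
          have h16 : 0 ≤ (m : ℝ) / Real.log 2 ^ (2 * (k + 1)) * Real.log N ^ (2 * (k + 1)) * N := by
            positivity
          nlinarith
  · push Not at hbig
    have hle : |(((range N).filter (fun i => ∀ r, z i r < q r)).card : ℝ) / N - ∏ r, q r| ≤ 1 := by
      have h1 : (((range N).filter (fun i => ∀ r, z i r < q r)).card : ℝ) / N ≤ 1 := by
        rw [div_le_one hN0R]
        have := Finset.card_filter_le (range N) (fun i => ∀ r, z i r < q r)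
        rw [Finset.card_range] at this
        exact_mod_cast this
      have h2 : 0 ≤ (((range N).filter (fun i => ∀ r, z i r < q r)).card : ℝ) / N := by
        positivity
      have h3 : 0 ≤ ∏ r, q r := Finset.prod_nonneg (fun r _ => hq0 r)
      have h4 : ∏ r, q r ≤ 1 := Finset.prod_le_one (fun r _ => hq0 r) (fun r _ => hq1 r)
      rw [abs_le]
      constructor <;> linarith
    refine hle.trans ?_
    rw [le_div_iff₀ hNα, one_mul]
    have h1 : (N : ℝ) ^ α ≤ m := by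
      have h2 : (N : ℝ) ≤ m := by exact_mod_cast hbig.le
      have h3 : α ≤ 1 := by linarith
      calc (N : ℝ) ^ α ≤ (N : ℝ) ^ (1 : ℝ) := Real.rpow_le_rpow_of_exponent_le hN1R h3
        _ = N := Real.rpow_one _
        _ ≤ m := h2
    have h4 : (m : ℝ) ≤ m / Real.log 2 ^ (2 * (k + 1)) * Real.log N ^ (2 * (k + 1)) := by
      have h5 : Real.log 2 ^ (2 * (k + 1)) ≤ Real.log N ^ (2 * (k + 1)) :=
        pow_le_pow_left₀ hlog2.le hlogN _
      have h6 : (0 : ℝ) < Real.log 2 ^ (2 * (k + 1)) := by positivity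
      rw [div_mul_eq_mul_div, le_div_iff₀ h6]
      exact mul_le_mul_of_nonneg_left h5 (Nat.cast_nonneg m)
    have h7 : 0 ≤ A * 3 ^ (2 * (k + 1)) * Real.log N ^ (2 * (k + 1)) := by positivity
    rw [add_mul]
    linarith

end Pool.Agent.H36.KI
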