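import Pool.Agent.H36.KI.Cnt
import Pool.Agent.H36.KI.Avg

set_option autoImplicit false

/-!
# [H36 KI Qb] energy of a slab away from the upper face

`S(t) = ∑ (V n t - F n (p n) (x n))`; the growth inequality gives
`Qa ≤ C2 τ (N τ + Y) + TB S c τ`, and `avg` bounds the trapezoid error `TB`.
-/

namespace Pool.Agent.H36.KI

open Finset MeasureTheory
open Pool.Agent.H47.KZ (IsKritzinger Qa Gr V F Phi chi kap hh mm growth Qa_le Qa_nonneg int_V_sub
  sum_mm_le V_continuous F_le_Phi)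

/-- the summed potential -/
private noncomputable def SS {k : ℕ} (p : ℕ → ℝ) (x : ℕ → Fin k → ℝ) (m N : ℕ) (t : ℝ) : ℝ :=
  ∑ n ∈ Ico m N, (V p x n t - F p x n (p n) (x n))

private lemma SS_cont {k : ℕ} (p : ℕ → ℝ) (x : ℕ → Fin k → ℝ) (m N : ℕ) :
    Continuous (SS p x m N) := by
  unfold SS
  exact continuous_finsetSum _ fun n _ => (V_continuous p x n).sub continuous_const

private lemma SS_succ {k : ℕ} (p : ℕ → ℝ) (x : ℕ → Fin k → ℝ) {m N : ℕ} (h : m ≤ N) (t : ℝ) :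
    SS p x m (N + 1) t = SS p x m N t + (V p x N t - F p x N (p N) (x N)) := by
  unfold SS
  rw [sum_Ico_succ_top h]

private lemma TB_succ {k : ℕ} (p : ℕ → ℝ) (x : ℕ → Fin k → ℝ) {m N : ℕ} (h : m ≤ N) (a τ : ℝ) :
    TB (SS p x m (N + 1)) a τ = TB (SS p x m N) a τ +
      (τ * (V p x N (a + τ) + V p x N (a - τ)) - ∫ t in (a - τ)..(a + τ), V p x N t) := by
  unfold TB
  have e : ∫ t in (a - τ)..(a + τ), SS p x m (N + 1) t =
      (∫ t in (a - τ)..(a + τ), SS p x m N t) +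
        ((∫ t in (a - τ)..(a + τ), V p x N t) - 2 * τ * F p x N (p N) (x N)) := by
    have i1 : IntervalIntegrable (fun t => SS p x m N t) volume (a - τ) (a + τ) :=
      (SS_cont p x m N).intervalIntegrable _ _
    have i2 : IntervalIntegrable (fun t => V p x N t) volume (a - τ) (a + τ) :=
      (V_continuous p x N).intervalIntegrable _ _
    have i3 : IntervalIntegrable (fun t => V p x N t - F p x N (p N) (x N)) volume
        (a - τ) (a + τ) := i2.sub intervalIntegrable_const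
    simp_rw [SS_succ p x h]
    rw [intervalIntegral.integral_add i1 i3, intervalIntegral.integral_sub i2
      intervalIntegrable_const, intervalIntegral.integral_const, smul_eq_mul]
    ring
  rw [e, SS_succ p x h, SS_succ p x h]
  ring

/-- upper bound of the slab functional -/
private lemma up {k m : ℕ} {p : ℕ → ℝ} {x : ℕ → Fin k → ℝ} (G : Gr m p x) (N : ℕ) (hN : m ≤ N)
    (a τ : ℝ) (hτ : 0 < τ) (h1 : -1 ≤ a - τ) (h2 : a + τ ≤ 1) :
    Qa p x (a - τ) (a + τ) N ≤ 16 * τ * m ^ 2 + 5 * τ * ∑ n ∈ Ico m N, chi (a - τ) (a + τ) (p n)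
      + 4 / 3 * τ ^ 3 * N + TB (SS p x m N) a τ := by
  induction N, hN using Nat.le_induction with
  | base =>
    have h3 := Qa_le p x G.pm G.xm m (a - τ) (a + τ) h1 (by linarith) h2
    have h4 : TB (SS p x m m) a τ = 0 := by
      unfold TB SS
      simp
    rw [h4, Ico_self, sum_empty]
    have h5 : 0 ≤ 4 / 3 * τ ^ 3 * (m : ℝ) := by positivity
    nlinarith [h3]
  | succ M hM ih =>
    rw [sum_Ico_succ_top hM, TB_succ p x hM]
    have h3 := growth G M hM (a - τ) (a + τ) h1 (by linarith) h2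
    have e1 : (a + τ - (a - τ)) = 2 * τ := by ring
    rw [e1] at h3
    push_cast
    nlinarith [h3, ih]

private lemma V_lip {k m : ℕ} {p : ℕ → ℝ} {x : ℕ → Fin k → ℝ} (G : Gr m p x) (n : ℕ) (t t' : ℝ)
    (h1 : -1 ≤ t) (h2 : t ≤ 1) (h3 : -1 ≤ t') (h4 : t' ≤ 1) :
    |V p x n t - V p x n t'| ≤ 4 * n * |t - t'| := by
  have hhn : ∀ j, 0 ≤ hh (x j) ∧ hh (x j) ≤ 1 := by
    intro j
    unfold hh
    constructor
    · refine prod_nonneg fun r _ => ?_
      have g1 := (G.xm j r).1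
      have g2 := (G.xm j r).2
      nlinarith
    · refine prod_le_one (fun r _ => ?_) (fun r _ => ?_)
      · have g1 := (G.xm j r).1
        have g2 := (G.xm j r).2
        nlinarith
      · have g3 := sq_nonneg (x j r)
        linarith
  have hkap : ∀ q : ℝ, |kap t q - kap t' q| ≤ |t - t'| := by
    intro q
    unfold kap
    have g1 : (1 - max |t| q) - (1 - max |t'| q) = -(max |t| q - max |t'| q) := by ring
    rw [g1, abs_neg]
    refine (abs_max_sub_max_le_abs _ _ _).trans ?_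
    exact abs_abs_sub_abs_le t t'
  have e : V p x n t - V p x n t' =
      2 * ∑ j ∈ range n, (kap t (p j) - kap t' (p j)) * hh (x j) +
        n * (1 / 3) ^ k * (t ^ 2 - t' ^ 2) := by
    unfold V
    simp only [sub_mul, sum_sub_distrib]
    ring
  have hs : |∑ j ∈ range n, (kap t (p j) - kap t' (p j)) * hh (x j)| ≤ n * |t - t'| := by
    refine (abs_sum_le_sum_abs _ _).trans ?_
    calc ∑ j ∈ range n, |(kap t (p j) - kap t' (p j)) * hh (x j)|
        ≤ ∑ _j ∈ range n, |t - t'| := by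
          refine sum_le_sum fun j _ => ?_
          rw [abs_mul, abs_of_nonneg (hhn j).1]
          calc |kap t (p j) - kap t' (p j)| * hh (x j) ≤ |t - t'| * 1 :=
                mul_le_mul (hkap _) (hhn j).2 (hhn j).1 (abs_nonneg _)
            _ = |t - t'| := mul_one _
      _ = n * |t - t'| := by rw [sum_const, card_range, nsmul_eq_mul]
  have hq : |t ^ 2 - t' ^ 2| ≤ 2 * |t - t'| := by
    have g1 : t ^ 2 - t' ^ 2 = (t + t') * (t - t') := by ring
    rw [g1, abs_mul]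
    have g2 : |t + t'| ≤ 2 := by
      rw [abs_le]
      constructor <;> linarith
    exact mul_le_mul_of_nonneg_right g2 (abs_nonneg _)
  have hth : (0 : ℝ) ≤ (1 / 3) ^ k := by positivity
  have hth1 : ((1 / 3 : ℝ)) ^ k ≤ 1 := pow_le_one₀ (by norm_num) (by norm_num)
  have hn0 : (0 : ℝ) ≤ n := Nat.cast_nonneg n
  rw [e]
  refine (abs_add_le _ _).trans ?_
  rw [abs_mul, abs_mul, abs_mul, abs_of_nonneg hn0, abs_of_nonneg hth, abs_two]
  have g5 : (n : ℝ) * (1 / 3) ^ k * |t ^ 2 - t' ^ 2| ≤ n * 1 * (2 * |t - t'|) := by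
    apply mul_le_mul _ hq (abs_nonneg _) (by positivity)
    exact mul_le_mul_of_nonneg_left hth1 hn0
  linarith

private lemma SS_lip {k m : ℕ} {p : ℕ → ℝ} {x : ℕ → Fin k → ℝ} (G : Gr m p x) (N : ℕ) (t t' : ℝ)
    (h1 : -1 ≤ t) (h2 : t ≤ 1) (h3 : -1 ≤ t') (h4 : t' ≤ 1) :
    |SS p x m N t - SS p x m N t'| ≤ 4 * (N : ℝ) ^ 2 * |t - t'| := by
  have e : SS p x m N t - SS p x m N t' = ∑ n ∈ Ico m N, (V p x n t - V p x n t') := by
    unfold SS
    rw [← sum_sub_distrib]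
    exact sum_congr rfl fun n _ => by ring
  rw [e]
  refine (abs_sum_le_sum_abs _ _).trans ?_
  have hcard : ((Ico m N).card : ℝ) ≤ N := by
    rw [Nat.card_Ico]
    exact_mod_cast Nat.sub_le N m
  have h0 := abs_nonneg (t - t')
  calc ∑ n ∈ Ico m N, |V p x n t - V p x n t'| ≤ ∑ _n ∈ Ico m N, 4 * (N : ℝ) * |t - t'| := by
        refine sum_le_sum fun n hn => (V_lip G n t t' h1 h2 h3 h4).trans ?_
        have hnN : (n : ℝ) ≤ N := by exact_mod_cast (mem_Ico.1 hn).2.le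
        nlinarith
    _ = (Ico m N).card * (4 * (N : ℝ) * |t - t'|) := by rw [sum_const, nsmul_eq_mul]
    _ ≤ N * (4 * (N : ℝ) * |t - t'|) := mul_le_mul_of_nonneg_right hcard (by positivity)
    _ = 4 * (N : ℝ) ^ 2 * |t - t'| := by ring

private lemma SS_ge {k m : ℕ} {p : ℕ → ℝ} {x : ℕ → Fin k → ℝ} (G : Gr m p x) (N : ℕ) (t : ℝ)
    (h1 : -1 ≤ t) (h2 : t ≤ 1) : -(N : ℝ) ≤ SS p x m N t := by
  have hterm : ∀ n ∈ Ico m N, (-1 : ℝ) ≤ V p x n t - F p x n (p n) (x n) := by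
    intro n hn
    have hmn := (mem_Ico.1 hn).1
    have a1 := F_le_Phi G n hmn t h1 h2
    have e : Phi p x n t - V p x n t = (1 - |t|) * (1 / 2) ^ k - (1 - t ^ 2) * (1 / 3) ^ k := by
      unfold Phi V
      ring
    have b1 : |t| ≤ 1 := abs_le.2 ⟨h1, h2⟩
    have b0 := abs_nonneg t
    have c1 : (0 : ℝ) ≤ (1 / 2) ^ k := by positivity
    have c2 : ((1 / 2 : ℝ)) ^ k ≤ 1 := pow_le_one₀ (by norm_num) (by norm_num)
    have d1 : (0 : ℝ) ≤ (1 / 3) ^ k := by positivity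
    have d2 : t ^ 2 ≤ 1 := by nlinarith
    have g2 : (1 - |t|) * (1 / 2) ^ k ≤ 1 := mul_le_one₀ (by linarith) c1 c2
    have g3 : 0 ≤ (1 - t ^ 2) * (1 / 3) ^ k := mul_nonneg (by linarith) d1
    linarith
  have hcard : ((Ico m N).card : ℝ) ≤ N := by
    rw [Nat.card_Ico]
    exact_mod_cast Nat.sub_le N m
  have h3 := sum_le_sum hterm
  rw [sum_const, nsmul_eq_mul] at h3
  unfold SS
  linarith

private lemma SS_int {k m : ℕ} {p : ℕ → ℝ} {x : ℕ → Fin k → ℝ} (G : Gr m p x) (N : ℕ)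
    (hN : m ≤ N) (hN1 : 1 ≤ N) :
    ∫ t in (-1 : ℝ)..1, |SS p x m N t| ≤ (4 * (m : ℝ) ^ 2 + 4) * N := by
  have hi : ∀ n, IntervalIntegrable (fun t => |V p x n t - F p x n (p n) (x n)|) volume (-1) 1 :=
    fun n => (((V_continuous p x n).sub continuous_const).abs).intervalIntegrable _ _
  have hcard : ((Ico m N).card : ℝ) ≤ N := by
    rw [Nat.card_Ico]
    exact_mod_cast Nat.sub_le N m
  have hsc : Continuous fun t => ∑ n ∈ Ico m N, |V p x n t - F p x n (p n) (x n)| :=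
    continuous_finsetSum _ fun n _ => ((V_continuous p x n).sub continuous_const).abs
  calc ∫ t in (-1 : ℝ)..1, |SS p x m N t|
      ≤ ∫ t in (-1 : ℝ)..1, ∑ n ∈ Ico m N, |V p x n t - F p x n (p n) (x n)| := by
        apply intervalIntegral.integral_mono_on (by norm_num)
          ((SS_cont p x m N).abs.intervalIntegrable _ _) (hsc.intervalIntegrable _ _)
        intro t _
        exact abs_sum_le_sum_abs _ _
    _ = ∑ n ∈ Ico m N, ∫ t in (-1 : ℝ)..1, |V p x n t - F p x n (p n) (x n)| :=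
        intervalIntegral.integral_finsetSum fun n _ => hi n
    _ ≤ ∑ n ∈ Ico m N, (2 * mm p x n + 2) :=
        sum_le_sum fun n hn => int_V_sub G n (mem_Ico.1 hn).1
    _ = 2 * (∑ n ∈ Ico m N, mm p x n) + 2 * (Ico m N).card := by
        rw [sum_add_distrib, ← mul_sum, sum_const, nsmul_eq_mul]
        ring
    _ ≤ 2 * (2 * m ^ 2 + N) + 2 * N := by
        have := sum_mm_le G N hN
        linarith
    _ ≤ (4 * (m : ℝ) ^ 2 + 4) * N := by
        have h1 : (1 : ℝ) ≤ N := by exact_mod_cast hN1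
        have h2 : (0 : ℝ) ≤ (m : ℝ) ^ 2 := by positivity
        nlinarith

private lemma lg_ge {N : ℕ} (hN : 1 ≤ N) : 1 ≤ lg N := by
  unfold lg
  have h1 : (1 : ℝ) ≤ N := by exact_mod_cast hN
  have := Real.log_nonneg h1
  linarith

private lemma YY_ge (k : ℕ) {N : ℕ} (hN : 1 ≤ N) : 1 ≤ YY k N := by
  unfold YY
  have h1 : (1 : ℝ) ≤ N := by exact_mod_cast hN
  exact one_le_mul_of_one_le_of_one_le (Real.one_le_rpow h1 (by norm_num))
    (one_le_pow₀ (lg_ge hN))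

private lemma YY_log (k : ℕ) {N : ℕ} (hN : 1 ≤ N) :
    YY k N * Real.log N ≤ (1 + 3 * ((k : ℝ) + 1)) ^ (k + 1) * N := by
  have h1 : (1 : ℝ) ≤ N := by exact_mod_cast hN
  have h0 : (0 : ℝ) < N := by linarith
  obtain ⟨ε, hε⟩ : ∃ ε : ℝ, ε = 1 / (3 * ((k : ℝ) + 1)) := ⟨_, rfl⟩
  have hε0 : 0 < ε := by rw [hε]; positivity
  have hlog : Real.log N ≤ (N : ℝ) ^ ε / ε := Real.log_le_rpow_div h0.le hε0
  have hone : (1 : ℝ) ≤ (N : ℝ) ^ ε := Real.one_le_rpow h1 hε0.le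
  have hinv : (N : ℝ) ^ ε / ε = 3 * ((k : ℝ) + 1) * (N : ℝ) ^ ε := by
    rw [hε]
    field_simp
  have hlg : lg N ≤ (1 + 3 * ((k : ℝ) + 1)) * (N : ℝ) ^ ε := by
    unfold lg
    rw [hinv] at hlog
    nlinarith
  have hlg1 := lg_ge hN
  have hlogle : Real.log N ≤ lg N := by
    unfold lg
    linarith
  have hpow : lg N ^ (k + 1) ≤ (1 + 3 * ((k : ℝ) + 1)) ^ (k + 1) * (N : ℝ) ^ (1 / 3 : ℝ) := by
    calc lg N ^ (k + 1) ≤ ((1 + 3 * ((k : ℝ) + 1)) * (N : ℝ) ^ ε) ^ (k + 1) :=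
          pow_le_pow_left₀ (by linarith) hlg _
      _ = (1 + 3 * ((k : ℝ) + 1)) ^ (k + 1) * ((N : ℝ) ^ ε) ^ (k + 1) := mul_pow _ _ _
      _ = (1 + 3 * ((k : ℝ) + 1)) ^ (k + 1) * (N : ℝ) ^ (1 / 3 : ℝ) := by
          congr 1
          rw [← Real.rpow_natCast, ← Real.rpow_mul h0.le]
          congr 1
          rw [hε]
          push_cast
          field_simp
  have hN23 : (0 : ℝ) ≤ (N : ℝ) ^ (2 / 3 : ℝ) := by positivity
  calc YY k N * Real.log N = (N : ℝ) ^ (2 / 3 : ℝ) * (lg N ^ k * Real.log N) := by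
        unfold YY
        ring
    _ ≤ (N : ℝ) ^ (2 / 3 : ℝ) * (lg N ^ k * lg N) := by
        apply mul_le_mul_of_nonneg_left _ hN23
        exact mul_le_mul_of_nonneg_left hlogle (by positivity)
    _ = (N : ℝ) ^ (2 / 3 : ℝ) * lg N ^ (k + 1) := by rw [pow_succ]
    _ ≤ (N : ℝ) ^ (2 / 3 : ℝ) *
        ((1 + 3 * ((k : ℝ) + 1)) ^ (k + 1) * (N : ℝ) ^ (1 / 3 : ℝ)) :=
        mul_le_mul_of_nonneg_left hpow hN23
    _ = (1 + 3 * ((k : ℝ) + 1)) ^ (k + 1) * ((N : ℝ) ^ (2 / 3 : ℝ) * (N : ℝ) ^ (1 / 3 : ℝ)) := by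
        ring
    _ = (1 + 3 * ((k : ℝ) + 1)) ^ (k + 1) * N := by
        rw [← Real.rpow_add h0]
        norm_num

private lemma SS_lower {k m : ℕ} {p : ℕ → ℝ} {x : ℕ → Fin k → ℝ} (G : Gr m p x) (N : ℕ)
    (hN : m ≤ N) (Y Cc : ℝ) (hY : 1 ≤ Y)
    (hcnt : ∀ a τ : ℝ, 0 < τ → -1 ≤ a - τ → a + τ ≤ 1 →
      ∑ n ∈ range N, chi (a - τ) (a + τ) (p n) ≤ Cc * (N * τ + Y))
    (a τ : ℝ) (hτ : 0 < τ) (h1 : -1 ≤ a - τ) (h2 : a + τ ≤ 1) :
    Qa p x (a - τ) (a + τ) N ≤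
      (16 * (m : ℝ) ^ 2 + 5 * Cc + 2) * τ * (N * τ + Y) + TB (SS p x m N) a τ := by
  have h3 := up G N hN a τ hτ h1 h2
  have h4 := hcnt a τ hτ h1 h2
  have h5 : ∑ n ∈ Ico m N, chi (a - τ) (a + τ) (p n) ≤
      ∑ n ∈ range N, chi (a - τ) (a + τ) (p n) := by
    apply sum_le_sum_of_subset_of_nonneg
    · intro n hn
      exact mem_range.2 (mem_Ico.1 hn).2
    · intro n _ _
      unfold chi
      positivity
  have hN0 : (0 : ℝ) ≤ N := Nat.cast_nonneg N
  have hτ1 : τ ≤ 1 := by linarith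
  have h6 : 5 * τ * ∑ n ∈ Ico m N, chi (a - τ) (a + τ) (p n) ≤ 5 * τ * (Cc * (N * τ + Y)) :=
    mul_le_mul_of_nonneg_left (h5.trans h4) (by positivity)
  have h7 : 4 / 3 * τ ^ 3 * N ≤ 2 * τ * (N * τ + Y) := by
    have g1 : τ ^ 2 * N ≤ τ * N := by
      apply mul_le_mul_of_nonneg_right _ hN0
      nlinarith
    have g2 : 0 ≤ τ * (τ * N - τ ^ 2 * N) := mul_nonneg hτ.le (by linarith)
    have g3 : 0 ≤ τ * Y := by positivity
    have g4 : 0 ≤ τ * (τ * N) := by positivity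
    nlinarith
  have h8 : 16 * τ * (m : ℝ) ^ 2 ≤ 16 * (m : ℝ) ^ 2 * τ * (N * τ + Y) := by
    have g1 : 1 ≤ N * τ + Y := by
      have : 0 ≤ N * τ := by positivity
      linarith
    have g2 : 0 ≤ 16 * (m : ℝ) ^ 2 * τ := by positivity
    nlinarith
  nlinarith [h3, h6, h7, h8]

/-- energy of a slab away from the upper face -/
theorem qbound (k m : ℕ) (κ : ℝ) (hκ : 0 < κ) (hκ1 : κ ≤ 1) :
    ∃ C : ℝ, 0 ≤ C ∧ ∀ z : ℕ → Fin (k + 1) → ℝ, IsKritzinger (k + 1) m z →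
    ∀ (r : Fin (k + 1)) (N : ℕ), m ≤ N → 2 ≤ N → ∀ c τ : ℝ, |c| ≤ 1 - κ → 1 / (N : ℝ) ≤ τ →
      τ ≤ κ / 4 →
      Qa (fun j => z j r) (fun j i => z j (r.succAbove i)) (c - τ) (c + τ) N ≤ C * ee k N τ := by
  obtain ⟨Cc, hCc, hcount⟩ := count k m
  obtain ⟨C2, hC2⟩ : ∃ C2 : ℝ, C2 = 16 * (m : ℝ) ^ 2 + 5 * Cc + 2 := ⟨_, rfl⟩
  have hC20 : 0 ≤ C2 := by rw [hC2]; positivity
  obtain ⟨C, hC, havg⟩ := avg κ C2 (4 * (m : ℝ) ^ 2 + 4) ((1 + 3 * ((k : ℝ) + 1)) ^ (k + 1))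
    hκ hκ1 hC20 (by positivity) (by positivity)
  refine ⟨C2 + C, by positivity, ?_⟩
  intro z h r N hm hN c τ hc hτN hτκ
  have G := Pool.Agent.H47.KZ.link h r
  have hN1 : 1 ≤ N := by omega
  have hNR : (2 : ℝ) ≤ N := by exact_mod_cast hN
  have hN0 : (0 : ℝ) < N := by linarith
  have hτ : 0 < τ := lt_of_lt_of_le (by positivity) hτN
  have hY := YY_ge k hN1
  have hlow := SS_lower G N hm (YY k N) Cc hY (hcount z h r N hm hN)
  rw [← hC2] at hlow
  have hcc := abs_le.1 hc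
  have g1 : -1 ≤ c - τ := by linarith
  have g2 : c + τ ≤ 1 := by linarith
  have hTB := havg (SS (fun j => z j r) (fun j i => z j (r.succAbove i)) m N) N (YY k N)
    (SS_cont _ _ _ _) hNR hY (YY_log k hN1)
    (by
      intro a τ' hτ' h1 h2
      have h3 := hlow a τ' hτ' h1 h2
      have h4 := Qa_nonneg (fun j => z j r) (fun j i => z j (r.succAbove i)) G.pm G.xm N
        (a - τ') (a + τ') (by linarith)
      unfold TB at h3
      linarith)
    (SS_int G N hm hN1) (fun t h1 h2 => SS_ge G N t h1 h2)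
    (fun t t' h1 h2 h3 h4 => SS_lip G N t t' h1 h2 h3 h4) c τ hc hτN hτκ
  have h5 := hlow c τ hτ g1 g2
  unfold TB at h5
  have hlg := lg_ge hN1
  have hlogle : Real.log N ≤ lg N := by
    unfold lg
    linarith
  have h6 : 0 ≤ τ * (N * τ + YY k N) := by positivity
  have h7 : C2 * τ * (N * τ + YY k N) ≤ C2 * (τ * (N * τ + YY k N) * lg N) := by
    have : τ * (N * τ + YY k N) ≤ τ * (N * τ + YY k N) * lg N := le_mul_of_one_le_right h6 hlg
    nlinarith
  have h8 : C * τ * (N * τ + YY k N) * Real.log N ≤ C * (τ * (N * τ + YY k N) * lg N) := by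
    have : τ * (N * τ + YY k N) * Real.log N ≤ τ * (N * τ + YY k N) * lg N :=
      mul_le_mul_of_nonneg_left hlogle h6
    nlinarith
  unfold ee
  linarith

end Pool.Agent.H36.KI
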